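import Pool.Agent.H43.CM.Defs

/-!
# MP_7fe4b4_ag : PARTS F, G.  Definitions: dual modules, parameters, the type
-/

open MvPolynomial

noncomputable section

namespace CMT

/-- `W` is isomorphic to `Hom_B(R, B)` as an `R`-module, where `R` is a `B`-algebra through `β`;
the `R`-module structure of `Hom_B(R, B)` is `(r φ)(x) = φ(r x)`. -/
def CanDual {B R : Type*} [CommRing B] [CommRing R] (β : B →+* R) (W : Type*) [AddCommGroup W]
    [Module R W] : Prop :=
  letI := β.toAlgebra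
  ∃ Φ : W ≃+ (R →ₗ[B] B), ∀ (r : R) (w : W) (x : R), Φ (r • w) x = Φ w (r * x)

/-- `R` is a finite free `B`-module through `β` -/
def FinFree {B R : Type*} [CommRing B] [CommRing R] (β : B →+* R) : Prop :=
  letI := β.toAlgebra
  Module.Finite B R ∧ Module.Free B R

variable {n : ℕ}

/-- the weight `p - j` of the variable `z_{p,j}` -/
def wt (e : Low n) : ℕ := e.1.1 - e.1.2

/-- `p_w = ∏_k Δ_{w,k}` -/
def pw (w : Equiv.Perm (Fin n)) : MvPolynomial (Low n) ℂ :=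
  ∏ k : Fin n, pmnr 1 w k.val k.isLt.le

/-- the weight of `p_w` -/
def delt (w : Equiv.Perm (Fin n)) : ℕ :=
  (∑ i : Fin n, (n - 1 - i.val) * (w i).val) - ∑ i : Fin n, (n - 1 - i.val) * i.val

/-- common weight of the parameters -/
def DD (n : ℕ) : ℕ := ∏ w : Equiv.Perm (Fin n), max (delt w) 1

/-- the parameter `θ_j` -/
def theta (n j : ℕ) : MvPolynomial (Low n) ℂ :=
  ∑ w : {w : Equiv.Perm (Fin n) // len w = j}, pw w.1 ^ (DD n / delt w.1)

/-- `B_d → A/I`, `Y_i ↦ th i` -/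
def betG {ι : Type} (I : Ideal (MvPolynomial ι ℂ)) (d : ℕ) (th : Fin d → MvPolynomial ι ℂ) :
    MvPolynomial (Fin d) ℂ →+* MvPolynomial ι ℂ ⧸ I :=
  (aeval fun i : Fin d => Ideal.Quotient.mk I (th i) :
    MvPolynomial (Fin d) ℂ →ₐ[ℂ] MvPolynomial ι ℂ ⧸ I).toRingHom

/-- `B_d → R_v`, `Y_i ↦ θ_{i+1}` -/
def bet (v : Equiv.Perm (Fin n)) (d : ℕ) : MvPolynomial (Fin d) ℂ →+* CR (SS 1 v) :=
  betG (VI (SS 1 v)) d fun i => theta n (i.val + 1)

/-- the data of (G3) -/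
structure GradedCM {ι : Type} [Finite ι] (w : ι → ℕ) (I : Ideal (MvPolynomial ι ℂ)) (d : ℕ)
    (th : Fin d → MvPolynomial ι ℂ) : Prop where
  wpos : ∀ i, 1 ≤ w i
  hom : ∀ f ∈ I, ∀ m, weightedHomogeneousComponent w m f ∈ I
  dom : I.IsPrime
  le : I ≤ Ideal.span (Set.range (X : ι → MvPolynomial ι ℂ))
  thom : ∀ i, ∃ m, 1 ≤ m ∧ IsWeightedHomogeneous w (th i) m
  prim : ∃ N : ℕ, (Ideal.span (Set.range (X : ι → MvPolynomial ι ℂ))) ^ N ≤
    I ⊔ Ideal.span (Set.range th)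
  dep : Dep (MvPolynomial ι ℂ ⧸ I)
    (Ideal.span (Set.range fun e => Ideal.Quotient.mk I (X e))) (MvPolynomial ι ℂ ⧸ I) d

open CategoryTheory Abelian

/-- the local ring `O` has dimension `d` and Cohen-Macaulay type `t`:
`Ext^d(k, O) ≅ k^t` as `O`-modules, and `Ext^i(k, O) = 0` for `i < d` -/
def HasType (O : Type) [CommRing O] [IsLocalRing O] (d t : ℕ) : Prop :=
  ringKrullDim O = d ∧
  (∀ i < d, Subsingleton (Ext (ModuleCat.of O (IsLocalRing.ResidueField O)) (ModuleCat.of O O) i)) ∧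
  Nonempty (Ext (ModuleCat.of O (IsLocalRing.ResidueField O)) (ModuleCat.of O O) d ≃ₗ[O]
    (Fin t → IsLocalRing.ResidueField O))

end CMT
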