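import Pool.Agent.H43.CM.G.Expand

/-!
# JOB CM-G17 : reduction of the dual module modulo the parameters

`B = MvPolynomial (Fin d) ℂ`, `β = (aeval t).toRingHom : B → R`, `J = span (range t)`; every `x : R` has a unique
expansion `x = ∑ β (b_i x) e_i`, so `b_i : R → B` is `B`-linear (uniqueness).
-/

open MvPolynomial

noncomputable section

namespace CMT

variable {R : Type} [CommRing R] [Algebra ℂ R] {d : ℕ} (t : Fin d → R)

theorem aeval_sub_mem (b : MvPolynomial (Fin d) ℂ) :
    aeval t b - algebraMap ℂ R (constantCoeff b) ∈ Ideal.span (Set.range t) := by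
  induction b using MvPolynomial.induction_on with
  | C a =>
    rw [constantCoeff_C, aeval_C, sub_self]
    exact Ideal.zero_mem _
  | add p q hp hq =>
    have h := Ideal.add_mem _ hp hq
    rw [map_add, map_add, map_add]
    have h2 : aeval t p + aeval t q - (algebraMap ℂ R (constantCoeff p) +
        algebraMap ℂ R (constantCoeff q)) = aeval t p - algebraMap ℂ R (constantCoeff p) +
        (aeval t q - algebraMap ℂ R (constantCoeff q)) := by ring
    rw [h2]
    exact h
  | mul_X p i hp =>
    rw [map_mul, map_mul, constantCoeff_X, mul_zero, map_zero, sub_zero, aeval_X]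
    exact Ideal.mul_mem_left _ _ (Ideal.subset_span ⟨i, rfl⟩)

/-- the class of an element modulo the parameters -/
theorem canRed_mk (r : ℕ) (e : Fin r → R) (b : Fin r → MvPolynomial (Fin d) ℂ) :
    Ideal.Quotient.mk (Ideal.span (Set.range t)) (∑ i, aeval t (b i) * e i) =
      ∑ i, constantCoeff (b i) • Ideal.Quotient.mk (Ideal.span (Set.range t)) (e i) := by
  rw [map_sum]
  refine Finset.sum_congr rfl fun i _ => ?_
  have h1 : constantCoeff (b i) • Ideal.Quotient.mk (Ideal.span (Set.range t)) (e i) =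
      Ideal.Quotient.mk (Ideal.span (Set.range t))
        (algebraMap ℂ R (constantCoeff (b i)) * e i) := by
    rw [← Algebra.smul_def]
    rfl
  rw [h1, Ideal.Quotient.eq, ← sub_mul]
  exact Ideal.mul_mem_right _ _ (aeval_sub_mem t (b i))

theorem expand_finite (r : ℕ) (e : Fin r → R)
    (he : ∀ x : R, ∃! b : Fin r → MvPolynomial (Fin d) ℂ, x = ∑ i, aeval t (b i) * e i) :
    Module.Finite ℂ (R ⧸ Ideal.span (Set.range t)) := by
  refine Module.Finite.of_surjective
    (Fintype.linearCombination ℂ
      (fun i : Fin r => Ideal.Quotient.mk (Ideal.span (Set.range t)) (e i))) ?_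
  intro v
  obtain ⟨x, rfl⟩ := Ideal.Quotient.mk_surjective v
  obtain ⟨b, hb, -⟩ := he x
  refine ⟨fun i => constantCoeff (b i), ?_⟩
  rw [Fintype.linearCombination_apply]
  conv_rhs => rw [hb]
  rw [canRed_mk]

/-- a polynomial is its constant term plus a combination of the variables -/
theorem canRed_split (g : MvPolynomial (Fin d) ℂ) :
    ∃ q : Fin d → MvPolynomial (Fin d) ℂ, g = C (constantCoeff g) + ∑ j, X j * q j := by
  induction g using MvPolynomial.induction_on with
  | C a => exact ⟨0, by simp⟩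
  | add p q hp hq =>
    obtain ⟨u, hu⟩ := hp
    obtain ⟨v, hv⟩ := hq
    refine ⟨u + v, ?_⟩
    have h1 : (∑ j, X j * (u + v) j : MvPolynomial (Fin d) ℂ) =
        ∑ j, X j * u j + ∑ j, X j * v j := by
      rw [← Finset.sum_add_distrib]
      exact Finset.sum_congr rfl fun j _ => by rw [Pi.add_apply, mul_add]
    rw [h1, map_add, map_add]
    conv_lhs => rw [hu, hv]
    ring
  | mul_X p i hp =>
    refine ⟨Pi.single i p, ?_⟩
    rw [map_mul, constantCoeff_X, mul_zero, map_zero, zero_add, Finset.sum_eq_single i]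
    · rw [Pi.single_eq_same, mul_comm]
    · intro j _ hj
      rw [Pi.single_eq_of_ne hj, mul_zero]
    · intro h
      exact absurd (Finset.mem_univ i) h

theorem canDual_reduce (r : ℕ) (e : Fin r → R)
    (he : ∀ x : R, ∃! b : Fin r → MvPolynomial (Fin d) ℂ, x = ∑ i, aeval t (b i) * e i)
    (W : Type) [AddCommGroup W] [Module R W] [Module ℂ W] [IsScalarTower ℂ R W]
    (hW : CanDual (aeval t : MvPolynomial (Fin d) ℂ →ₐ[ℂ] R).toRingHom W) :
    ∃ Ψ : W →ₗ[ℂ] Module.Dual ℂ (R ⧸ Ideal.span (Set.range t)),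
      (∀ (r : R) (w : W) (v : R ⧸ Ideal.span (Set.range t)), Ψ (r • w) v = Ψ w (r • v)) ∧
      Function.Surjective Ψ ∧
      (∀ w, Ψ w = 0 → w ∈ Ideal.span (Set.range t) • (⊤ : Submodule R W)) := by
  classical
  letI alg : Algebra (MvPolynomial (Fin d) ℂ) R :=
    (aeval t : MvPolynomial (Fin d) ℂ →ₐ[ℂ] R).toRingHom.toAlgebra
  have hW' : ∃ Φ : W ≃+ (R →ₗ[MvPolynomial (Fin d) ℂ] MvPolynomial (Fin d) ℂ),
      ∀ (r : R) (w : W) (x : R), Φ (r • w) x = Φ w (r * x) := hW
  obtain ⟨Φ, hΦ⟩ := hW'
  have hsm : ∀ (p : MvPolynomial (Fin d) ℂ) (x : R), p • x = aeval t p * x := fun p x => rfl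
  -- the coefficients
  choose b hb hbu using he
  have hbu' : ∀ (x : R) (c : Fin r → MvPolynomial (Fin d) ℂ), x = ∑ i, aeval t (c i) * e i →
      c = b x := fun x c hc => hbu x c hc
  have hbadd : ∀ x y, b (x + y) = b x + b y := by
    intro x y
    refine (hbu' (x + y) (b x + b y) ?_).symm
    have h1 : ∑ i, aeval t ((b x + b y) i) * e i =
        ∑ i, aeval t (b x i) * e i + ∑ i, aeval t (b y i) * e i := by
      rw [← Finset.sum_add_distrib]
      exact Finset.sum_congr rfl fun i _ => by rw [Pi.add_apply, map_add, add_mul]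
    rw [h1, ← hb x, ← hb y]
  have hbsmul : ∀ (p : MvPolynomial (Fin d) ℂ) x, b (p • x) = p • b x := by
    intro p x
    refine (hbu' (p • x) (p • b x) ?_).symm
    have h1 : ∑ i, aeval t ((p • b x) i) * e i = aeval t p * ∑ i, aeval t (b x i) * e i := by
      rw [Finset.mul_sum]
      exact Finset.sum_congr rfl fun i _ => by rw [Pi.smul_apply, smul_eq_mul, map_mul, mul_assoc]
    rw [h1, ← hb x, hsm]
  -- linear maps with prescribed values on the basis
  have hlin : ∀ g : Fin r → MvPolynomial (Fin d) ℂ,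
      ∃ φ : R →ₗ[MvPolynomial (Fin d) ℂ] MvPolynomial (Fin d) ℂ, ∀ x, φ x = ∑ i, b x i * g i := by
    intro g
    refine ⟨{ toFun := fun x => ∑ i, b x i * g i, map_add' := ?_, map_smul' := ?_ }, fun x => rfl⟩
    · intro x y
      rw [← Finset.sum_add_distrib]
      exact Finset.sum_congr rfl fun i _ => by rw [hbadd, Pi.add_apply, add_mul]
    · intro p x
      rw [RingHom.id_apply, smul_eq_mul, Finset.mul_sum]
      exact Finset.sum_congr rfl fun i _ => by
        rw [hbsmul, Pi.smul_apply, smul_eq_mul, mul_assoc]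
  have hCsm : ∀ (c : ℂ) (x : R), (C c : MvPolynomial (Fin d) ℂ) • x = c • x := by
    intro c x
    rw [hsm, aeval_C, ← Algebra.smul_def]
  -- the functional
  let f : W → R →ₗ[ℂ] ℂ := fun w =>
    { toFun := fun x => constantCoeff (Φ w x)
      map_add' := fun x y => by rw [map_add, map_add]
      map_smul' := fun c x => by
        rw [← hCsm, map_smul, smul_eq_mul, map_mul, constantCoeff_C, RingHom.id_apply,
          smul_eq_mul] }
  have hf : ∀ w x, f w x = constantCoeff (Φ w x) := fun w x => rfl
  have hfJ : ∀ w, ∀ x ∈ Ideal.span (Set.range t), ∀ y : R, constantCoeff (Φ w (y * x)) = 0 := by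
    intro w x hx
    refine Submodule.span_induction ?_ ?_ ?_ ?_ hx
    · rintro _ ⟨i, rfl⟩ y
      have h1 : y * t i = (X i : MvPolynomial (Fin d) ℂ) • y := by
        rw [hsm, aeval_X, mul_comm]
      rw [h1, map_smul, smul_eq_mul, map_mul, constantCoeff_X, zero_mul]
    · intro y
      rw [mul_zero, map_zero, map_zero]
    · intro x y _ _ hx hy z
      rw [mul_add, map_add, map_add, hx z, hy z, add_zero]
    · intro a x _ hx z
      rw [smul_eq_mul, ← mul_assoc]
      exact hx (z * a)
  have hker : ∀ w, (Ideal.span (Set.range t)).restrictScalars ℂ ≤ LinearMap.ker (f w) := by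
    intro w x hx
    rw [LinearMap.mem_ker, hf]
    have h1 := hfJ w x hx 1
    rwa [one_mul] at h1
  let g : W → Module.Dual ℂ (R ⧸ Ideal.span (Set.range t)) := fun w =>
    ((Ideal.span (Set.range t)).restrictScalars ℂ).liftQ (f w) (hker w) ∘ₗ
      (Submodule.Quotient.restrictScalarsEquiv ℂ (Ideal.span (Set.range t))).symm.toLinearMap
  have hg : ∀ w x, g w (Ideal.Quotient.mk _ x) = constantCoeff (Φ w x) := fun w x => rfl
  have hext : ∀ l l' : Module.Dual ℂ (R ⧸ Ideal.span (Set.range t)),
      (∀ x, l (Ideal.Quotient.mk _ x) = l' (Ideal.Quotient.mk _ x)) → l = l' := by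
    intro l l' h
    apply LinearMap.ext
    intro v
    obtain ⟨x, rfl⟩ := Ideal.Quotient.mk_surjective v
    exact h x
  let Ψ : W →ₗ[ℂ] Module.Dual ℂ (R ⧸ Ideal.span (Set.range t)) :=
    { toFun := g
      map_add' := fun w w' => by
        apply hext
        intro x
        rw [LinearMap.add_apply, hg, hg, hg, map_add, LinearMap.add_apply, map_add]
      map_smul' := fun c w => by
        apply hext
        intro x
        rw [RingHom.id_apply, LinearMap.smul_apply, hg, hg, ← algebraMap_smul R c w, hΦ,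
          ← Algebra.smul_def, ← hCsm, map_smul, smul_eq_mul, map_mul, constantCoeff_C,
          smul_eq_mul] }
  have hΨ : ∀ w x, Ψ w (Ideal.Quotient.mk _ x) = constantCoeff (Φ w x) := fun w x => rfl
  refine ⟨Ψ, ?_, ?_, ?_⟩
  · intro a w v
    obtain ⟨x, rfl⟩ := Ideal.Quotient.mk_surjective v
    have h1 : a • Ideal.Quotient.mk (Ideal.span (Set.range t)) x =
        Ideal.Quotient.mk (Ideal.span (Set.range t)) (a * x) := rfl
    rw [h1, hΨ, hΨ, hΦ]
  · intro l
    obtain ⟨φ, hφ⟩ := hlin (fun i => C (l (Ideal.Quotient.mk _ (e i))))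
    refine ⟨Φ.symm φ, ?_⟩
    apply hext
    intro x
    rw [hΨ, AddEquiv.apply_symm_apply, hφ, map_sum]
    conv_rhs => rw [hb x, canRed_mk, map_sum]
    refine Finset.sum_congr rfl fun i _ => ?_
    rw [map_mul, constantCoeff_C, map_smul, smul_eq_mul]
  · intro w hw
    have h0 : ∀ x, constantCoeff (Φ w x) = 0 := by
      intro x
      rw [← hΨ, hw]
      rfl
    have h1 : ∀ i : Fin r, ∃ q : Fin d → MvPolynomial (Fin d) ℂ,
        Φ w (e i) = ∑ j, X j * q j := by
      intro i
      obtain ⟨q, hq⟩ := canRed_split (Φ w (e i))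
      rw [h0, map_zero, zero_add] at hq
      exact ⟨q, hq⟩
    choose q hq using h1
    choose φ hφ using fun j : Fin d => hlin (fun i => q i j)
    have h2 : w = ∑ j, t j • Φ.symm (φ j) := by
      apply Φ.injective
      apply LinearMap.ext
      intro x
      rw [map_sum, LinearMap.sum_apply]
      have h3 : ∀ j, (Φ (t j • Φ.symm (φ j))) x = X j * ∑ i, b x i * q i j := by
        intro j
        rw [hΦ, AddEquiv.apply_symm_apply]
        have h4 : t j * x = (X j : MvPolynomial (Fin d) ℂ) • x := by
          rw [hsm, aeval_X]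
        rw [h4, map_smul, smul_eq_mul, hφ]
      rw [Finset.sum_congr rfl fun j _ => h3 j]
      have h5 : Φ w x = ∑ i, b x i * Φ w (e i) := by
        have h6 : x = ∑ i, b x i • e i := hb x
        conv_lhs => rw [h6]
        rw [map_sum]
        exact Finset.sum_congr rfl fun i _ => by rw [map_smul, smul_eq_mul]
      rw [h5, Finset.sum_congr rfl fun i _ => by rw [hq i]]
      simp only [Finset.mul_sum]
      rw [Finset.sum_comm]
      exact Finset.sum_congr rfl fun j _ => Finset.sum_congr rfl fun i _ => by ring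
    rw [h2]
    exact Submodule.sum_mem _ fun j _ =>
      Submodule.smul_mem_smul (Ideal.subset_span ⟨j, rfl⟩) Submodule.mem_top

end CMT
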