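import Pool.Agent.H43.CM.G.Defs

/-!
# JOB CM-G05 : localizing a weakly regular sequence

`rs` weakly regular on `R` with entries in the prime ideal `p`.  Then the list of images is weakly
regular on `R_p` (flat base change: `RingTheory.Sequence.IsWeaklyRegular.of_flat` /
`IsWeaklyRegular.of_isLocalizedModule` in Mathlib.RingTheory.Regular.Flat), with entries in the maximal ideal
(`IsLocalization.AtPrime.to_map_mem_maximal_iff`).
-/

noncomputable section

namespace CMT

theorem dep_localization {R : Type} [CommRing R] (p : Ideal R) [p.IsPrime] (d : ℕ)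
    (h : Dep R p R d) :
    Dep (Localization.AtPrime p) (IsLocalRing.maximalIdeal (Localization.AtPrime p))
      (Localization.AtPrime p) d := by
  obtain ⟨rs, hl, hI, hr⟩ := h
  refine ⟨rs.map (algebraMap R (Localization.AtPrime p)), by rw [List.length_map, hl], ?_,
    hr.of_isLocalization (Localization.AtPrime p) p.primeCompl⟩
  intro s hs
  obtain ⟨r, hr', rfl⟩ := List.mem_map.1 hs
  rw [IsLocalization.AtPrime.to_map_mem_maximal_iff (Localization.AtPrime p) p]
  exact hI r hr'

end CMT
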