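import Pool.Agent.H43.CM.G.Defs

/-!
# JOB CM-G03 : dimension and number of generators up to radical

`O` Noetherian local with maximal ideal `𝔪`, `p` a proper ideal, `t_0..t_{j-1} ∈ 𝔪` with
`𝔪^N ≤ p + (t)`.  Then `dim O/p ≤ j`.
-/

noncomputable section

namespace CMT

theorem dim_quot_le {O : Type} [CommRing O] [IsLocalRing O] [IsNoetherianRing O] (p : Ideal O)
    (hp : p ≠ ⊤) (j : ℕ) (S : Finset O) (hS : S.card ≤ j)
    (ht : ∀ s ∈ S, s ∈ IsLocalRing.maximalIdeal O) (N : ℕ)
    (hN : IsLocalRing.maximalIdeal O ^ N ≤ p ⊔ Ideal.span (S : Set O)) :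
    ringKrullDim (O ⧸ p) ≤ ((j : ℕ∞) : WithBot ℕ∞) := by
  classical
  haveI : Nontrivial (O ⧸ p) := Ideal.Quotient.nontrivial_iff.mpr hp
  haveI hloc : IsLocalRing (O ⧸ p) :=
    IsLocalRing.of_surjective' (Ideal.Quotient.mk p) Ideal.Quotient.mk_surjective
  have hcomap : (IsLocalRing.maximalIdeal (O ⧸ p)).comap (Ideal.Quotient.mk p) =
      IsLocalRing.maximalIdeal O := by
    apply IsLocalRing.eq_maximalIdeal
    exact Ideal.comap_isMaximal_of_surjective _ Ideal.Quotient.mk_surjective
  rw [← IsLocalRing.maximalIdeal_height_eq_ringKrullDim]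
  have hmin : IsLocalRing.maximalIdeal (O ⧸ p) ∈
      (Ideal.span ((S.image (Ideal.Quotient.mk p) : Finset (O ⧸ p)) : Set (O ⧸ p))).minimalPrimes := by
    refine ⟨⟨inferInstance, ?_⟩, ?_⟩
    · rw [Ideal.span_le]
      intro y hy
      rw [Finset.mem_coe, Finset.mem_image] at hy
      obtain ⟨s, hs, rfl⟩ := hy
      have h1 : s ∈ (IsLocalRing.maximalIdeal (O ⧸ p)).comap (Ideal.Quotient.mk p) := by
        rw [hcomap]
        exact ht s hs
      exact h1
    · rintro q ⟨hq, hle⟩ -
      haveI := hq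
      intro y hy
      obtain ⟨z, rfl⟩ := Ideal.Quotient.mk_surjective y
      have hz : z ∈ IsLocalRing.maximalIdeal O := by
        rw [← hcomap]
        exact hy
      have h2 : z ^ N ∈ p ⊔ Ideal.span (S : Set O) := hN (Ideal.pow_mem_pow hz N)
      have h3 : p ⊔ Ideal.span (S : Set O) ≤ q.comap (Ideal.Quotient.mk p) := by
        refine sup_le ?_ ?_
        · intro a ha
          rw [Ideal.mem_comap, Ideal.Quotient.eq_zero_iff_mem.mpr ha]
          exact q.zero_mem
        · rw [Ideal.span_le]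
          intro a ha
          apply hle
          apply Ideal.subset_span
          rw [Finset.mem_coe, Finset.mem_image]
          exact ⟨a, ha, rfl⟩
      have h4 : Ideal.Quotient.mk p z ^ N ∈ q := by
        rw [← map_pow]
        exact h3 h2
      exact hq.mem_of_pow_mem N h4
  have h5 := Ideal.height_le_card_of_mem_minimalPrimes_span_finset hmin
  have h6 : ((S.image (Ideal.Quotient.mk p)).card : ℕ∞) ≤ (j : ℕ∞) := by
    exact_mod_cast (Finset.card_image_le.trans hS)
  exact WithBot.coe_le_coe.mpr (h5.trans h6)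

end CMT
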