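import Pool.Agent.H43.CM.G.RegR

/-!
# JOB CM-G10 : a monomial basis of `A / (I + (th))`

`J = I ⊔ span (range th)` contains `(X)^N` (`h.prim`).  The monomials of degree `< N` span `A ⧸ J` over `ℂ` (a monomial
of degree `≥ N` lies in `(X)^N`: it is a product of `≥ N` variables).  There are finitely many of them
(`ι` finite).  A maximal linearly independent subset (e.g. `exists_linearIndependent'` applied to the family of the
images of these monomials, or `Submodule.exists_finset_..`, or induction on a minimal spanning subset: choose a subset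
`S` of the finite set of exponents, minimal with the spanning property (1); then (2) holds, because in a
nontrivial relation one could solve for one monomial and remove it).
-/

open MvPolynomial

noncomputable section

namespace CMT

variable {ι : Type} [Finite ι] {w : ι → ℕ} {I : Ideal (MvPolynomial ι ℂ)} {d : ℕ}
  {th : Fin d → MvPolynomial ι ℂ}

theorem gradedCM_monBasis (h : GradedCM w I d th) : ∃ S : Finset (ι →₀ ℕ),
    (∀ f : MvPolynomial ι ℂ, ∃ c : (ι →₀ ℕ) → ℂ,
      f - ∑ s ∈ S, monomial s (c s) ∈ I ⊔ Ideal.span (Set.range th)) ∧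
    (∀ c : (ι →₀ ℕ) → ℂ, ∑ s ∈ S, monomial s (c s) ∈ I ⊔ Ideal.span (Set.range th) →
      ∀ s ∈ S, c s = 0) := by
  classical
  obtain ⟨N, hN⟩ := h.prim
  generalize I ⊔ Ideal.span (Set.range th) = J at hN ⊢
  have hfin : {s : ι →₀ ℕ | s.degree < N}.Finite := Finsupp.finite_of_degree_lt N
  let q : MvPolynomial ι ℂ →ₗ[ℂ] MvPolynomial ι ℂ ⧸ J := (Ideal.Quotient.mkₐ ℂ J).toLinearMap
  have hq : ∀ f, q f = 0 ↔ f ∈ J := fun f => Ideal.Quotient.eq_zero_iff_mem
  let T := {s : ι →₀ ℕ // s.degree < N}
  have : Fintype T := hfin.fintype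
  let v : T → (MvPolynomial ι ℂ ⧸ J) := fun s => q (monomial s.1 1)
  obtain ⟨κ, a, ha, hsp, hli⟩ := exists_linearIndependent' ℂ v
  have : Fintype κ := Fintype.ofInjective a ha
  let g : κ → (ι →₀ ℕ) := fun k => (a k).1
  have hg : Function.Injective g := fun x y hxy => ha (Subtype.ext hxy)
  have hmon : ∀ (s : ι →₀ ℕ) (c : ℂ), (monomial s c : MvPolynomial ι ℂ) = c • monomial s 1 := by
    intro s c
    rw [smul_monomial, smul_eq_mul, mul_one]
  have hsum : ∀ c : (ι →₀ ℕ) → ℂ, q (∑ s ∈ Finset.univ.image g, monomial s (c s)) =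
      ∑ k, c (g k) • (v ∘ a) k := by
    intro c
    rw [Finset.sum_image (fun x _ y _ hxy => hg hxy), map_sum]
    refine Finset.sum_congr rfl fun k _ => ?_
    rw [hmon, map_smul]
    rfl
  refine ⟨Finset.univ.image g, ?_, ?_⟩
  · intro f
    have h1 : q f ∈ Submodule.span ℂ (Set.range v) := by
      rw [f.as_sum, map_sum]
      refine Submodule.sum_mem _ fun s _ => ?_
      by_cases hs : s.degree < N
      · rw [hmon, map_smul]
        exact Submodule.smul_mem _ _ (Submodule.subset_span ⟨⟨s, hs⟩, rfl⟩)
      · have h2 : (monomial s (coeff s f) : MvPolynomial ι ℂ) ∈ J := by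
          apply hN
          refine (mem_pow_idealOfVars_iff N _).mpr fun x hx => ?_
          have := support_monomial_subset hx
          rw [Finset.mem_singleton] at this
          rw [this]
          exact not_lt.mp hs
        rw [(hq _).mpr h2]
        exact Submodule.zero_mem _
    rw [← hsp, Submodule.mem_span_range_iff_exists_fun] at h1
    obtain ⟨c, hc⟩ := h1
    refine ⟨Function.extend g c 0, ?_⟩
    rw [← hq, map_sub, hsum, ← hc, sub_eq_zero]
    refine Finset.sum_congr rfl fun k _ => ?_
    rw [hg.extend_apply]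
  · intro c hc s hs
    rw [← hq, hsum] at hc
    obtain ⟨k, _, rfl⟩ := Finset.mem_image.mp hs
    exact Fintype.linearIndependent_iff.mp hli (fun k => c (g k)) hc k

end CMT
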