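import Pool.Agent.H43.CM.G.RegR

/-!
# JOB CM-G09 : graded Nakayama: generators of `A / I` over `B = ℂ[Y_0..Y_{d-1}]`

`S` a finite set of exponents such that every `f ∈ A` is a `ℂ`-linear combination of the monomials
with exponents in `S`, modulo `I + (th)`.  Then every `f` is a combination of these monomials with coefficients in
`B` (acting through `Y_i ↦ th_i`), modulo `I`.

Proof. Let `P f` be the statement.  It is additive in `f`, so it is enough to treat `f` weighted homogeneous of weight
`m` (`sum_weightedHomogeneousComponent`, finitely many components), by strong induction on `m`.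
Write `f = ∑_{s ∈ S} c_s X^s + g + ∑_i a_i th_i` with `g ∈ I` (`Ideal.mem_span_range_iff_exists_fun`, `Submodule.mem_sup`).
Take the component of weight `m`: `f = ∑_{s ∈ S, wt s = m} c_s X^s + comp m g + ∑_i comp (m - k_i) a_i * th_i` where
`k_i ≥ 1` is the weight of `th_i` (terms with `k_i > m` are zero): `comp_mul_hom`; `comp m g ∈ I` by `h.hom`.
The `comp (m - k_i) a_i` are homogeneous of smaller weight, so `P` holds for them by induction; multiply their
coefficients by `Y_i`.
-/

open MvPolynomial

noncomputable section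

namespace CMT

variable {ι : Type} [Finite ι] {w : ι → ℕ} {I : Ideal (MvPolynomial ι ℂ)} {d : ℕ}
  {th : Fin d → MvPolynomial ι ℂ}

/-- `f` is a combination of the monomials of `S` with coefficients in `B`, modulo `I` -/
def SpanP (I : Ideal (MvPolynomial ι ℂ)) (d : ℕ) (th : Fin d → MvPolynomial ι ℂ)
    (S : Finset (ι →₀ ℕ)) (f : MvPolynomial ι ℂ) : Prop :=
  ∃ b : (ι →₀ ℕ) → MvPolynomial (Fin d) ℂ,
    Ideal.Quotient.mk I f = ∑ s ∈ S, betG I d th (b s) * Ideal.Quotient.mk I (monomial s 1)

omit [Finite ι] in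
theorem SpanP_add {S : Finset (ι →₀ ℕ)} {f g : MvPolynomial ι ℂ} (hf : SpanP I d th S f)
    (hg : SpanP I d th S g) : SpanP I d th S (f + g) := by
  obtain ⟨b, hb⟩ := hf
  obtain ⟨b', hb'⟩ := hg
  refine ⟨fun s => b s + b' s, ?_⟩
  rw [map_add, hb, hb', ← Finset.sum_add_distrib]
  refine Finset.sum_congr rfl fun s _ => ?_
  rw [map_add, add_mul]

omit [Finite ι] in
theorem SpanP_of_mem {S : Finset (ι →₀ ℕ)} {f : MvPolynomial ι ℂ} (hf : f ∈ I) :
    SpanP I d th S f := by
  refine ⟨fun _ => 0, ?_⟩
  rw [Ideal.Quotient.eq_zero_iff_mem.2 hf]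
  simp

omit [Finite ι] in
theorem SpanP_sum {S : Finset (ι →₀ ℕ)} {κ : Type} (T : Finset κ) (F : κ → MvPolynomial ι ℂ)
    (hF : ∀ i ∈ T, SpanP I d th S (F i)) : SpanP I d th S (∑ i ∈ T, F i) := by
  classical
  induction T using Finset.induction_on with
  | empty =>
    rw [Finset.sum_empty]
    exact SpanP_of_mem I.zero_mem
  | insert a T ha ih =>
    rw [Finset.sum_insert ha]
    exact SpanP_add (hF a (Finset.mem_insert_self a T))
      (ih fun i hi => hF i (Finset.mem_insert_of_mem hi))

omit [Finite ι] in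
theorem SpanP_mono {S : Finset (ι →₀ ℕ)} {c : ι →₀ ℕ} (hc : c ∈ S) (a : ℂ) :
    SpanP I d th S (monomial c a) := by
  classical
  refine ⟨fun s => if s = c then C a else 0, ?_⟩
  rw [Finset.sum_eq_single c]
  · show _ = betG I d th (if c = c then C a else 0) * _
    rw [if_pos rfl]
    have h1 : betG I d th (C a) = Ideal.Quotient.mk I (C a) := by
      unfold betG
      rw [AlgHom.toRingHom_eq_coe, RingHom.coe_coe, ← MvPolynomial.algebraMap_eq, AlgHom.commutes]
      rfl
    rw [h1, ← map_mul, C_mul_monomial, mul_one]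
  · intro s _ hs
    show betG I d th (if s = c then C a else 0) * _ = 0
    rw [if_neg hs, map_zero, zero_mul]
  · intro h
    exact absurd hc h

omit [Finite ι] in
theorem SpanP_th {S : Finset (ι →₀ ℕ)} {f : MvPolynomial ι ℂ} (hf : SpanP I d th S f)
    (i : Fin d) : SpanP I d th S (th i * f) := by
  obtain ⟨b, hb⟩ := hf
  refine ⟨fun s => X i * b s, ?_⟩
  have h1 : betG I d th (X i) = Ideal.Quotient.mk I (th i) := by
    unfold betG
    rw [AlgHom.toRingHom_eq_coe, RingHom.coe_coe, aeval_X]
  rw [map_mul, hb, Finset.mul_sum]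
  refine Finset.sum_congr rfl fun s _ => ?_
  rw [map_mul, h1, mul_assoc]

theorem SpanP_hom (h : GradedCM w I d th) (S : Finset (ι →₀ ℕ))
    (hS : ∀ f : MvPolynomial ι ℂ, ∃ c : (ι →₀ ℕ) → ℂ,
      f - ∑ s ∈ S, monomial s (c s) ∈ I ⊔ Ideal.span (Set.range th)) (m : ℕ) :
    ∀ f : MvPolynomial ι ℂ, IsWeightedHomogeneous w f m → SpanP I d th S f := by
  induction m using Nat.strong_induction_on with
  | _ m ih =>
    intro f hf
    obtain ⟨c, hc⟩ := hS f
    obtain ⟨g, hg, y, hy, hgy⟩ := Submodule.mem_sup.1 hc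
    obtain ⟨a, ha⟩ := Ideal.mem_span_range_iff_exists_fun.1 hy
    have h1 : f = ∑ s ∈ S, monomial s (c s) + g + ∑ i, th i * a i := by
      have h2 : ∑ i, th i * a i = y := by
        rw [← ha]
        exact Finset.sum_congr rfl fun i _ => mul_comm _ _
      rw [h2]
      linear_combination -hgy
    have h2 := hf.weightedHomogeneousComponent_same
    rw [← h2, h1, map_add, map_add, map_sum, map_sum]
    refine SpanP_add (SpanP_add (SpanP_sum _ _ fun s hs => ?_) (SpanP_of_mem (h.hom g hg m)))
      (SpanP_sum _ _ fun i _ => ?_)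
    · by_cases hsm : Finsupp.weight w s = m
      · have := (isWeightedHomogeneous_monomial w s (c s) hsm).weightedHomogeneousComponent_same
        rw [this]
        exact SpanP_mono hs _
      · have := (isWeightedHomogeneous_monomial w s (c s) rfl).weightedHomogeneousComponent_ne m
          (Ne.symm hsm)
        rw [this]
        exact SpanP_of_mem I.zero_mem
    · obtain ⟨k, hk1, hk⟩ := h.thom i
      rw [comp_mul_hom w (th i) (a i) k hk m]
      split_ifs with hkm
      · refine SpanP_th (ih (m - k) (by omega) _ ?_) i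
        exact weightedHomogeneousComponent_isWeightedHomogeneous _ _
      · exact SpanP_of_mem I.zero_mem

theorem gradedCM_span (h : GradedCM w I d th) (S : Finset (ι →₀ ℕ))
    (hS : ∀ f : MvPolynomial ι ℂ, ∃ c : (ι →₀ ℕ) → ℂ,
      f - ∑ s ∈ S, monomial s (c s) ∈ I ⊔ Ideal.span (Set.range th))
    (f : MvPolynomial ι ℂ) :
    ∃ b : (ι →₀ ℕ) → MvPolynomial (Fin d) ℂ,
      Ideal.Quotient.mk I f = ∑ s ∈ S, betG I d th (b s) * Ideal.Quotient.mk I (monomial s 1) := by
  show SpanP I d th S f
  induction f using MvPolynomial.induction_on' with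
  | monomial u a =>
    exact SpanP_hom h S hS (Finsupp.weight w u) _ (isWeightedHomogeneous_monomial w u a rfl)
  | add p q hp hq => exact SpanP_add hp hq

end CMT
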