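import Pool.Agent.H43.CM.G.Indep
import Pool.Agent.H43.CM.G.Span
import Pool.Agent.H43.CM.G.MonBasis

/-!
# JOB CM-G11 : `A / I` is free over `B = ℂ[Y_0..Y_{d-1}]` on a monomial basis

`κ = S` (a finset of exponents), `e s = mk (monomial s 1)`.  Existence: `gradedCM_span`; uniqueness:
`regFam_independent` with `k = ℂ`, `R = A ⧸ I`, `t i = mk (th i)`, `gradedCM_regFam`; the hypothesis on `ℂ`-linear
relations: `∑ c_s e_s ∈ span (range t)` in `R` means `∑ monomial s (c_s) ∈ I ⊔ span (range th)` in `A`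
(`Ideal.mem_quotient_iff_mem_sup`, `Ideal.map_span`).  `betG I d th` is `aeval t` by definition.
-/

open MvPolynomial

noncomputable section

namespace CMT

variable {ι : Type} [Finite ι] {w : ι → ℕ} {I : Ideal (MvPolynomial ι ℂ)} {d : ℕ}
  {th : Fin d → MvPolynomial ι ℂ}

theorem gradedCM_expand (h : GradedCM w I d th) :
    ∃ (r : ℕ) (e : Fin r → MvPolynomial ι ℂ ⧸ I), ∀ x : MvPolynomial ι ℂ ⧸ I,
      ∃! b : Fin r → MvPolynomial (Fin d) ℂ, x = ∑ i, betG I d th (b i) * e i := by
  classical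
  obtain ⟨S, hS1, hS2⟩ := gradedCM_monBasis h
  set e : Fin S.card → MvPolynomial ι ℂ ⧸ I :=
    fun i => Ideal.Quotient.mk I (monomial (S.equivFin.symm i).1 1) with he
  have hre : ∀ {M : Type} [AddCommMonoid M] (F : (ι →₀ ℕ) → M),
      ∑ i : Fin S.card, F (S.equivFin.symm i).1 = ∑ s ∈ S, F s := by
    intro M _ F
    rw [← Finset.sum_coe_sort S F]
    exact Equiv.sum_comp S.equivFin.symm fun s : S => F s.1
  have key : ∀ c : Fin S.card → MvPolynomial (Fin d) ℂ,
      ∑ i, betG I d th (c i) * e i = 0 → c = 0 := by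
    intro c hc
    refine regFam_independent (k := ℂ) d (fun i => Ideal.Quotient.mk I (th i))
      (gradedCM_regFam h) e ?_ c hc
    intro a ha
    have h1 : (∑ i, algebraMap ℂ (MvPolynomial ι ℂ ⧸ I) (a i) * e i) =
        Ideal.Quotient.mk I (∑ i, monomial (S.equivFin.symm i).1 (a i)) := by
      rw [map_sum]
      refine Finset.sum_congr rfl fun i _ => ?_
      have h2 : algebraMap ℂ (MvPolynomial ι ℂ ⧸ I) (a i) =
          Ideal.Quotient.mk I (C (a i)) := rfl
      rw [h2, he, ← map_mul, C_mul_monomial, mul_one]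
    have h3 : Ideal.span (Set.range fun i => Ideal.Quotient.mk I (th i)) =
        (Ideal.span (Set.range th)).map (Ideal.Quotient.mk I) := by
      rw [Ideal.map_span, ← Set.range_comp]
      rfl
    rw [h1, h3, Ideal.mem_quotient_iff_mem_sup, sup_comm] at ha
    let a' : (ι →₀ ℕ) → ℂ := fun s => if hs : s ∈ S then a (S.equivFin ⟨s, hs⟩) else 0
    have ha' : ∀ i, a' (S.equivFin.symm i).1 = a i := by
      intro i
      have h4 : (S.equivFin.symm i).1 ∈ S := (S.equivFin.symm i).2
      simp only [a', dif_pos h4, Subtype.coe_eta, Equiv.apply_symm_apply]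
    have h5 : ∑ i, (monomial (S.equivFin.symm i).1 (a i) : MvPolynomial ι ℂ) =
        ∑ s ∈ S, monomial s (a' s) := by
      rw [← hre fun s => (monomial s (a' s) : MvPolynomial ι ℂ)]
      refine Finset.sum_congr rfl fun i _ => ?_
      rw [ha']
    rw [h5] at ha
    have h6 := hS2 a' ha
    funext i
    rw [← ha' i]
    exact h6 _ (S.equivFin.symm i).2
  refine ⟨S.card, e, fun x => ?_⟩
  obtain ⟨f, rfl⟩ := Ideal.Quotient.mk_surjective x
  obtain ⟨b, hb⟩ := gradedCM_span h S hS1 f
  have hb' : Ideal.Quotient.mk I f = ∑ i, betG I d th (b (S.equivFin.symm i).1) * e i := by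
    rw [hb, ← hre fun s => betG I d th (b s) * Ideal.Quotient.mk I (monomial s 1)]
  refine ⟨fun i => b (S.equivFin.symm i).1, hb', ?_⟩
  intro c hc
  have h7 : (fun i => c i - b (S.equivFin.symm i).1) = 0 := by
    apply key
    simp only [map_sub, sub_mul, Finset.sum_sub_distrib]
    rw [← hb']
    exact sub_eq_zero.mpr hc.symm
  funext i
  exact sub_eq_zero.mp (congrFun h7 i)

end CMT
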