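import Pool.Agent.H43.CM.G.RegFam

/-!
# JOB CM-G13 : `Ext^d(O/I, M/xM) = Ext^{d+1}(O/I, M)` if `x ∈ I` is `M`-regular and `Ext^d(O/I, M) = 0`

`S : 0 → M → M → M/xM → 0` (multiplication by `x`): `IsSMulRegular.smulShortComplex_shortExact` as in
Mathlib/RingTheory/Depth/Rees.lean (its third object is `ModuleCat.of O (QuotSMulTop x M)`), class
`e = hS.extClass : Ext (M/xM) M 1`.  The map `y ↦ y.comp e rfl` is `O`-linear (`Ext.add_comp`, `Ext.smul_comp`).
Injective: `Ext.covariant_sequence_exact₃` (`y.comp e = 0` implies `y` comes from `Ext^d(O/I, M) = 0`).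
Surjective: `z : Ext^{d+1}(O/I, M)`; `x • z = 0` because `x` kills `O/I` (see the proof of `ext_of_dep` in
C/DepExt.lean: `x • z = (mk₀ (x • 𝟙)).comp z = 0`), and `z.comp (mk₀ (x • 𝟙)) = x • z`, so `z` comes from
`Ext^d(O/I, M/xM)` by `Ext.covariant_sequence_exact₁`.
-/

open CategoryTheory Abelian
open scoped Pointwise

noncomputable section

namespace CMT

theorem ext_shift {O : Type} [CommRing O] (I : Ideal O) (M : Type) [AddCommGroup M] [Module O M]
    (x : O) (hx : x ∈ I) (hreg : IsSMulRegular M x) (d : ℕ)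
    (h : Subsingleton (Ext (ModuleCat.of O (O ⧸ I)) (ModuleCat.of O M) d)) :
    Nonempty (Ext (ModuleCat.of O (O ⧸ I)) (ModuleCat.of O (QuotSMulTop x M)) d ≃ₗ[O]
      Ext (ModuleCat.of O (O ⧸ I)) (ModuleCat.of O M) (d + 1)) := by
  have hreg' : IsSMulRegular (ModuleCat.of O M) x := hreg
  have hS := hreg'.smulShortComplex_shortExact
  have hxI : x • 𝟙 (ModuleCat.of O (O ⧸ I)) = 0 := by
    ext
    show x • (1 : O ⧸ I) = 0
    rw [Algebra.smul_def, mul_one]
    exact Ideal.Quotient.eq_zero_iff_mem.2 hx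
  refine ⟨LinearEquiv.ofBijective
    (Ext.postcompOfLinear (C := ModuleCat O) hS.extClass O (ModuleCat.of O (O ⧸ I))
      (rfl : d + 1 = d + 1)) ⟨?_, ?_⟩⟩
  · rw [injective_iff_map_eq_zero]
    intro y hy
    obtain ⟨y2, hy2⟩ := Ext.covariant_sequence_exact₃ (ModuleCat.of O (O ⧸ I)) hS y rfl hy
    have h0 : y2 = 0 := Subsingleton.elim (h := h) _ _
    rw [← hy2, h0, Ext.zero_comp]
  · intro z
    have key : ∀ z : Ext (ModuleCat.of O (O ⧸ I)) (ModuleCat.of O M) (d + 1),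
        z.comp (Ext.mk₀ (x • 𝟙 (ModuleCat.of O M))) (add_zero (d + 1)) = 0 := by
      intro z
      have h1 : x • z = (Ext.mk₀ (x • 𝟙 (ModuleCat.of O (O ⧸ I)))).comp z (zero_add (d + 1)) := by
        simp [Ext.mk₀_smul]
      rw [← Ext.smul_eq_comp_mk₀, h1, hxI]
      simp
    exact Ext.covariant_sequence_exact₁ (ModuleCat.of O (O ⧸ I)) hS z (key z) rfl

/-- `Ext^i` is functorial in isomorphisms of modules -/
theorem ext_congr {O : Type} [CommRing O] {K K' M M' : Type} [AddCommGroup K] [Module O K]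
    [AddCommGroup K'] [Module O K'] [AddCommGroup M] [Module O M] [AddCommGroup M'] [Module O M']
    (f : K ≃ₗ[O] K') (g : M ≃ₗ[O] M') (d : ℕ) :
    Nonempty (Ext (ModuleCat.of O K) (ModuleCat.of O M) d ≃ₗ[O]
      Ext (ModuleCat.of O K') (ModuleCat.of O M') d) := by
  obtain ⟨F, hF⟩ : ∃ F : ModuleCat.of O K ≅ ModuleCat.of O K', F = f.toModuleIso := ⟨_, rfl⟩
  obtain ⟨G, hG⟩ : ∃ G : ModuleCat.of O M ≅ ModuleCat.of O M', G = g.toModuleIso := ⟨_, rfl⟩
  refine ⟨LinearEquiv.ofLinearMap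
    ((Ext.precompOfLinear (Ext.mk₀ F.inv) O (ModuleCat.of O M') (zero_add d)).comp
      (Ext.postcompOfLinear (Ext.mk₀ G.hom) O (ModuleCat.of O K) (add_zero d)))
    ((Ext.precompOfLinear (Ext.mk₀ F.hom) O (ModuleCat.of O M) (zero_add d)).comp
      (Ext.postcompOfLinear (Ext.mk₀ G.inv) O (ModuleCat.of O K') (add_zero d))) ?_ ?_⟩
  · apply LinearMap.ext
    intro z
    show (Ext.mk₀ F.inv).comp (((Ext.mk₀ F.hom).comp (z.comp (Ext.mk₀ G.inv) (add_zero d))
      (zero_add d)).comp (Ext.mk₀ G.hom) (add_zero d)) (zero_add d) = z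
    simp
  · apply LinearMap.ext
    intro z
    show (Ext.mk₀ F.hom).comp (((Ext.mk₀ F.inv).comp (z.comp (Ext.mk₀ G.hom) (add_zero d))
      (zero_add d)).comp (Ext.mk₀ G.inv) (add_zero d)) (zero_add d) = z
    simp

/-- `Ext^0` is `Hom` -/
theorem ext_zero_hom {O : Type} [CommRing O] (K M : Type) [AddCommGroup K] [Module O K]
    [AddCommGroup M] [Module O M] :
    Nonempty (Ext (ModuleCat.of O K) (ModuleCat.of O M) 0 ≃ₗ[O] (K →ₗ[O] M)) := by
  exact ⟨(Ext.linearEquiv₀ (R := O)).trans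
    (ModuleCat.homLinearEquiv (S := O) (M := ModuleCat.of O K) (N := ModuleCat.of O M))⟩

end CMT
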