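import Pool.Agent.H43.CM.G.ExtShift

/-!
# JOB CM-G14 : `Ext^d(O/𝔪, O) = Hom(O/𝔪, O/(t))` for a regular family `t_0..t_{d-1}` in `𝔪`

`ext_top_aux` : descending induction on `j ≤ d` (induction on `d - j`).  `j = d`: `ext_zero_hom`, `jid_top`.
`j < d`: `d - j = (d - (j+1)) + 1`; `M = O ⧸ jid t j`; `t j` is regular on `M` (`regFam_isSMulRegular`); `Dep O 𝔪 M (d-j)`
by `regFam_dep`, so `Ext^(d-j-1)(O/𝔪, M) = 0` by `ext_of_dep`; so `ext_shift` gives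
`Ext^(d-j)(O/𝔪, M) = Ext^(d-j-1)(O/𝔪, QuotSMulTop (t j) M)`, and `QuotSMulTop (t j) M ≃ O ⧸ jid t (j+1)`
(`quotSMul_equiv`, `jid_succ`; `ext_congr`).
`ext_top` : `j = 0`, `O ⧸ jid t 0 = O ⧸ ⊥ ≃ O`.
-/

open CategoryTheory Abelian
open scoped Pointwise

noncomputable section

namespace CMT

theorem extTop_step {O : Type} [CommRing O] [IsNoetherianRing O] (m : Ideal O) {d : ℕ}
    (t : Fin d → O) (ht : ∀ i, t i ∈ m) (hr : RegFam t) :
    ∀ k j : ℕ, j + k = d →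
    Nonempty (Ext (ModuleCat.of O (O ⧸ m)) (ModuleCat.of O (O ⧸ jid t j)) k ≃ₗ[O]
      ((O ⧸ m) →ₗ[O] (O ⧸ Ideal.span (Set.range t)))) := by
  intro k
  induction k with
  | zero =>
    intro j hj
    have hjd : j = d := by omega
    subst hjd
    obtain ⟨e⟩ := ext_zero_hom (O := O) (O ⧸ m) (O ⧸ jid t j)
    exact ⟨e.trans (LinearEquiv.congrRight (Submodule.quotEquivOfEq _ _ (jid_top t)))⟩
  | succ k ih =>
    intro j hj
    have hjd : j < d := by omega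
    obtain ⟨e1⟩ := ih (j + 1) (by omega)
    have hs := jid_succ t ⟨j, hjd⟩
    simp only at hs
    have hdep : Dep O m (O ⧸ jid t j) (d - j) := regFam_dep m t ht hr j hjd.le
    have hsub : Subsingleton (Ext (ModuleCat.of O (O ⧸ m)) (ModuleCat.of O (O ⧸ jid t j)) k) :=
      ext_of_dep m (O ⧸ jid t j) (d - j) hdep k (by omega)
    obtain ⟨e2⟩ := ext_shift m (O ⧸ jid t j) (t ⟨j, hjd⟩) (ht _)
      (regFam_isSMulRegular t hr ⟨j, hjd⟩) k hsub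
    obtain ⟨e3⟩ := quotSMul_equiv (jid t j) (t ⟨j, hjd⟩)
    obtain ⟨e4⟩ := ext_congr (LinearEquiv.refl O (O ⧸ m))
      (e3.trans (Submodule.quotEquivOfEq _ _ hs.symm)) k
    exact ⟨(e2.symm.trans e4).trans e1⟩

theorem ext_top_aux {O : Type} [CommRing O] [IsNoetherianRing O] (m : Ideal O) {d : ℕ}
    (t : Fin d → O) (ht : ∀ i, t i ∈ m) (hr : RegFam t) (j : ℕ) (hj : j ≤ d) :
    Nonempty (Ext (ModuleCat.of O (O ⧸ m)) (ModuleCat.of O (O ⧸ jid t j)) (d - j) ≃ₗ[O]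
      ((O ⧸ m) →ₗ[O] (O ⧸ Ideal.span (Set.range t)))) :=
  extTop_step m t ht hr (d - j) j (by omega)

theorem ext_top {O : Type} [CommRing O] [IsNoetherianRing O] (m : Ideal O) {d : ℕ}
    (t : Fin d → O) (ht : ∀ i, t i ∈ m) (hr : RegFam t) :
    Nonempty (Ext (ModuleCat.of O (O ⧸ m)) (ModuleCat.of O O) d ≃ₗ[O]
      ((O ⧸ m) →ₗ[O] (O ⧸ Ideal.span (Set.range t)))) := by
  obtain ⟨e1⟩ := extTop_step m t ht hr d 0 (by omega)
  obtain ⟨e2⟩ := ext_congr (LinearEquiv.refl O (O ⧸ m))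
    (Submodule.quotEquivOfEqBot (jid t 0) (jid_zero t)) d
  exact ⟨e2.symm.trans e1⟩

end CMT
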