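import Pool.Agent.H43.CM.G.Expand

/-!
# JOB CM-G12 : (G3) finite and free

* `finFree_of_expand` : `e` is a basis of `R` over `B` (`Basis.mk` or `Basis.ofEquivFun`): the map
  `b ↦ ∑ β(b_i) e_i` from `Fin r → B` to `R` is `B`-linear and bijective.
-/

open MvPolynomial

noncomputable section

namespace CMT

theorem finFree_of_expand {B R : Type} [CommRing B] [CommRing R] (β : B →+* R) (r : ℕ)
    (e : Fin r → R) (h : ∀ x : R, ∃! b : Fin r → B, x = ∑ i, β (b i) * e i) : FinFree β := by
  unfold FinFree
  letI := β.toAlgebra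
  let φ : (Fin r → B) →ₗ[B] R := Fintype.linearCombination B e
  have hap : ∀ c : Fin r → B, φ c = ∑ i, β (c i) * e i := fun c =>
    Fintype.linearCombination_apply B e c
  have hφ : Function.Bijective φ := by
    constructor
    · intro c c' hc
      obtain ⟨b, -, hb⟩ := h (φ c)
      rw [hb c (hap c), hb c' (hc.trans (hap c'))]
    · intro x
      obtain ⟨b, hb, -⟩ := h x
      exact ⟨b, (hap b).trans hb.symm⟩
  let b : Module.Basis (Fin r) B R :=
    Module.Basis.ofEquivFun (LinearEquiv.ofBijective φ hφ).symm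
  exact ⟨Module.Finite.of_basis b, Module.Free.of_basis b⟩

theorem gradedCM_finFree {ι : Type} [Finite ι] (w : ι → ℕ) (I : Ideal (MvPolynomial ι ℂ)) (d : ℕ)
    (th : Fin d → MvPolynomial ι ℂ) (h : GradedCM w I d th) : FinFree (betG I d th) := by
  obtain ⟨r, e, he⟩ := gradedCM_expand h
  exact finFree_of_expand _ r e he

end CMT
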