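import Pool.Agent.H43.CM.G.Defs

/-!
# JOB CM-G15 : the socle; finite dimensional duality

* `hom_soc` : `φ ↦ φ 1`; inverse: `x ↦ (mk a ↦ a • x)` (`Submodule.liftQ`).
* `vec_of_killed` : `N` is killed by the maximal ideal of the local ring `O`, which is a `ℂ`-algebra with residue field
  `ℂ` (hypothesis `hres`).  Take a `ℂ`-basis `v` of `N` (`Module.finBasis ℂ N`), send `a : Fin t → ResidueField O` to
  `∑ ã_i v_i`; or: the linear map `N → (Fin t → ResidueField O)`, `x ↦ (i ↦ algebraMap ℂ _ (v.repr x i))` is additive and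
  bijective (`ℂ → ResidueField O` is bijective: injective as a field map, surjective by `hres`), and `O`-linear: for
  `a : O`, `a - algebraMap ℂ O c ∈ 𝔪`: `a • x = c • x`.
* `finrank_dual_soc` : `Θ : W → Dual k (soc m V)`, `Θ w = (Ψ w)|_soc`.  It is `k`-linear, onto (`Ψ` is onto and linear forms
  extend from a subspace: `Module.Dual` / `LinearMap.exists_extend`), and its kernel is `m • ⊤`:  `⊇`: `Ψ (a • w) v = Ψ w (a • v) = 0`
  for `v ∈ soc`, `a ∈ m` (`Submodule.smul_induction_on`).  `⊆`: let `U ≤ Dual k V` be the span of all `Ψ (a • w)`, `a ∈ m`, i.e. the set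
  `{φ (a • ·)}`; its coannihilator in `V` is `soc` (if `φ (a • v) = 0` for all `φ` then `a • v = 0`), so
  `U = dualAnnihilator (soc)` (`Subspace.dualCoannihilator_dualAnnihilator_eq` in finite dimension); if `Θ w = 0` then
  `Ψ w ∈ dualAnnihilator soc = U`, `Ψ w = Ψ w'` with `w' ∈ m • ⊤`, and `w - w' ∈ m • ⊤` by `hker`.
  So `W ⧸ m • ⊤ ≃ₗ[k] Dual k (soc m V)` (`LinearMap.quotKerEquivOfSurjective`), `Subspace.dual_finrank_eq`.
-/

noncomputable section

namespace CMT

/-- the submodule of elements killed by `m` -/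
def soc {R : Type*} [CommRing R] (m : Ideal R) (N : Type*) [AddCommGroup N] [Module R N] :
    Submodule R N where
  carrier := {x | ∀ a ∈ m, a • x = 0}
  add_mem' := by
    intro x y hx hy a ha
    rw [smul_add, hx a ha, hy a ha, add_zero]
  zero_mem' := fun a _ => smul_zero a
  smul_mem' := by
    intro c x hx a ha
    rw [smul_comm, hx a ha, smul_zero]

theorem hom_soc {R : Type} [CommRing R] (m : Ideal R) (N : Type) [AddCommGroup N] [Module R N] :
    Nonempty (((R ⧸ m) →ₗ[R] N) ≃ₗ[R] soc m N) := by
  have h1 : ∀ (φ : (R ⧸ m) →ₗ[R] N) (a : R), φ (Ideal.Quotient.mk m a) = a • φ 1 := by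
    intro φ a
    rw [← map_smul, Algebra.smul_def, mul_one]
    rfl
  let f : ((R ⧸ m) →ₗ[R] N) →ₗ[R] soc m N :=
    { toFun := fun φ => ⟨φ 1, fun a ha => by
        rw [← h1, Ideal.Quotient.eq_zero_iff_mem.2 ha, map_zero]⟩
      map_add' := fun φ ψ => rfl
      map_smul' := fun a φ => rfl }
  refine ⟨LinearEquiv.ofBijective f ⟨?_, ?_⟩⟩
  · intro φ ψ h
    have h2 : φ 1 = ψ 1 := congrArg Subtype.val h
    apply LinearMap.ext
    intro x
    obtain ⟨a, rfl⟩ := Ideal.Quotient.mk_surjective x
    rw [h1, h1, h2]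
  · rintro ⟨x, hx⟩
    refine ⟨Submodule.liftQ m (LinearMap.toSpanSingleton R N x) ?_, ?_⟩
    · intro a ha
      rw [LinearMap.mem_ker, LinearMap.toSpanSingleton_apply]
      exact hx a ha
    · apply Subtype.ext
      show Submodule.liftQ m (LinearMap.toSpanSingleton R N x) _ (Submodule.Quotient.mk (1 : R)) = x
      rw [Submodule.liftQ_apply, LinearMap.toSpanSingleton_apply, one_smul]

theorem vec_of_killed {O : Type} [CommRing O] [IsLocalRing O] [Algebra ℂ O]
    (hres : ∀ x : O, ∃ c : ℂ, x - algebraMap ℂ O c ∈ IsLocalRing.maximalIdeal O)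
    (N : Type) [AddCommGroup N] [Module O N] [Module ℂ N] [IsScalarTower ℂ O N]
    [Module.Finite ℂ N] (hkill : ∀ a ∈ IsLocalRing.maximalIdeal O, ∀ x : N, a • x = 0) :
    Nonempty (N ≃ₗ[O] (Fin (Module.finrank ℂ N) → IsLocalRing.ResidueField O)) := by
  let v := Module.finBasis ℂ N
  let g : ℂ →+* IsLocalRing.ResidueField O := (IsLocalRing.residue O).comp (algebraMap ℂ O)
  have hg : ∀ (a : O) (c : ℂ), a - algebraMap ℂ O c ∈ IsLocalRing.maximalIdeal O →
      IsLocalRing.residue O a = g c := by
    intro a c h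
    have h2 : IsLocalRing.residue O (a - algebraMap ℂ O c) = 0 :=
      (IsLocalRing.residue_eq_zero_iff _).2 h
    rw [map_sub] at h2
    exact sub_eq_zero.1 h2
  let f : N →ₗ[O] (Fin (Module.finrank ℂ N) → IsLocalRing.ResidueField O) :=
    { toFun := fun x i => g (v.repr x i)
      map_add' := fun x y => by
        funext i
        show g (v.repr (x + y) i) = g (v.repr x i) + g (v.repr y i)
        rw [map_add, Finsupp.add_apply, map_add]
      map_smul' := fun a x => by
        funext i
        show g (v.repr (a • x) i) = a • g (v.repr x i)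
        obtain ⟨c, hc⟩ := hres a
        have h1 : a • x = c • x := by
          have h2 := hkill _ hc x
          rw [sub_smul, algebraMap_smul] at h2
          exact sub_eq_zero.1 h2
        rw [h1, map_smul, Finsupp.smul_apply, smul_eq_mul, map_mul, Algebra.smul_def,
          IsLocalRing.ResidueField.algebraMap_eq, hg a c hc] }
  refine ⟨LinearEquiv.ofBijective f ⟨?_, ?_⟩⟩
  · intro x y h
    apply v.repr.injective
    ext i
    exact g.injective (congrFun h i)
  · intro y
    have h1 : ∀ i, ∃ c : ℂ, g c = y i := by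
      intro i
      obtain ⟨a, ha⟩ := IsLocalRing.residue_surjective (y i)
      obtain ⟨c, hc⟩ := hres a
      exact ⟨c, by rw [← hg a c hc, ha]⟩
    choose c hc using h1
    refine ⟨v.equivFun.symm c, ?_⟩
    funext i
    show g (v.repr (v.equivFun.symm c) i) = y i
    rw [← hc i]
    congr 1
    have h2 : v.equivFun (v.equivFun.symm c) i = c i := by rw [LinearEquiv.apply_symm_apply]
    rw [← h2, Module.Basis.equivFun_apply]

theorem finrank_dual_soc {k R : Type} [Field k] [CommRing R] [Algebra k R] (m : Ideal R)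
    (V : Type) [AddCommGroup V] [Module k V] [Module R V] [IsScalarTower k R V]
    [Module.Finite k V] (W : Type) [AddCommGroup W] [Module k W] [Module R W]
    [IsScalarTower k R W] (Ψ : W →ₗ[k] Module.Dual k V)
    (hΨ : ∀ (r : R) (w : W) (v : V), Ψ (r • w) v = Ψ w (r • v))
    (hsurj : Function.Surjective Ψ)
    (hker : ∀ w, Ψ w = 0 → w ∈ m • (⊤ : Submodule R W)) :
    Module.finrank k (W ⧸ (m • (⊤ : Submodule R W))) = Module.finrank k (soc m V) := by
  let S : Submodule k V := (soc m V).restrictScalars k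
  let Θ : W →ₗ[k] Module.Dual k S := S.dualRestrict ∘ₗ Ψ
  have hΘ : Function.Surjective Θ := Subspace.dualRestrict_surjective.comp hsurj
  have hker' : LinearMap.ker Θ = (m • (⊤ : Submodule R W)).restrictScalars k := by
    apply le_antisymm
    · intro w hw
      let U : Submodule k (Module.Dual k V) :=
        ((m • (⊤ : Submodule R W)).restrictScalars k).map Ψ
      have h1 : U.dualCoannihilator ≤ S := by
        intro v hv a ha
        rw [← Module.forall_dual_apply_eq_zero_iff k]
        intro φ
        obtain ⟨w', rfl⟩ := hsurj φ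
        rw [← hΨ]
        rw [Submodule.mem_dualCoannihilator] at hv
        exact hv _ ⟨a • w', Submodule.smul_mem_smul ha Submodule.mem_top, rfl⟩
      have h2 : S.dualAnnihilator ≤ U := by
        have h3 := Submodule.dualAnnihilator_anti h1
        rwa [Subspace.dualCoannihilator_dualAnnihilator_eq] at h3
      have h3 : Ψ w ∈ S.dualAnnihilator := by
        rw [Submodule.mem_dualAnnihilator]
        intro v hv
        have h4 : Θ w ⟨v, hv⟩ = 0 := by
          rw [LinearMap.mem_ker.1 hw]
          rfl
        exact h4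
      obtain ⟨w', hw', he⟩ := h2 h3
      have h5 : w - w' ∈ m • (⊤ : Submodule R W) := hker _ (by rw [map_sub, he, sub_self])
      have h6 : w = (w - w') + w' := by abel
      rw [h6]
      exact Submodule.add_mem _ h5 hw'
    · intro w hw
      have hw1 : w ∈ m • (⊤ : Submodule R W) := hw
      rw [LinearMap.mem_ker]
      apply LinearMap.ext
      rintro ⟨v, hv⟩
      show Ψ w v = 0
      clear hw
      induction hw1 using Submodule.smul_induction_on' with
      | smul a ha w' _ => rw [hΨ, hv a ha, map_zero]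
      | add x _ y _ hx hy => rw [map_add, LinearMap.add_apply, hx, hy, add_zero]
  have e1 : (W ⧸ (m • (⊤ : Submodule R W))) ≃ₗ[k] Module.Dual k S :=
    ((Submodule.Quotient.restrictScalarsEquiv k (m • (⊤ : Submodule R W))).symm.trans
      (Submodule.quotEquivOfEq _ _ hker'.symm)).trans (LinearMap.quotKerEquivOfSurjective Θ hΘ)
  rw [e1.finrank_eq, Subspace.dual_finrank_eq]
  rfl

end CMT
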