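import Pool.Agent.H43.CM.G.ExtTop
import Pool.Agent.H43.CM.G.Soc

/-!
# MP_7fe4b4_ag, (G4) the type of a local ring from the socle
-/

open CategoryTheory Abelian

noncomputable section

namespace CMT

/-- the residue field of `O` as an `O`-module -/
def residueEquiv (O : Type) [CommRing O] [IsLocalRing O] :
    IsLocalRing.ResidueField O ≃ₗ[O] (O ⧸ IsLocalRing.maximalIdeal O) :=
  LinearEquiv.refl O (O ⧸ IsLocalRing.maximalIdeal O)

theorem hasType_of {O : Type} [CommRing O] [IsLocalRing O] [IsNoetherianRing O] [Algebra ℂ O]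
    (d : ℕ) (hdim : ringKrullDim O = ((d : ℕ∞) : WithBot ℕ∞))
    (hdep : Dep O (IsLocalRing.maximalIdeal O) O d) (t : Fin d → O)
    (ht : ∀ i, t i ∈ IsLocalRing.maximalIdeal O) (hreg : RegFam t)
    (hres : ∀ x : O, ∃ c : ℂ, x - algebraMap ℂ O c ∈ IsLocalRing.maximalIdeal O)
    (hfin : Module.Finite ℂ (soc (IsLocalRing.maximalIdeal O) (O ⧸ Ideal.span (Set.range t))))
    (n : ℕ) (hn : Module.finrank ℂ
      (soc (IsLocalRing.maximalIdeal O) (O ⧸ Ideal.span (Set.range t))) = n) :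
    HasType O d n := by
  refine ⟨hdim, ?_, ?_⟩
  · intro i hi
    have h1 := ext_of_dep (IsLocalRing.maximalIdeal O) O d hdep i hi
    obtain ⟨g⟩ := ext_congr (residueEquiv O) (LinearEquiv.refl O O) i
    exact g.toEquiv.subsingleton
  · obtain ⟨g⟩ := ext_congr (residueEquiv O) (LinearEquiv.refl O O) d
    obtain ⟨g2⟩ := ext_top (IsLocalRing.maximalIdeal O) t ht hreg
    obtain ⟨g3⟩ := hom_soc (IsLocalRing.maximalIdeal O) (O ⧸ Ideal.span (Set.range t))
    obtain ⟨g4⟩ := vec_of_killed hres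
      (soc (IsLocalRing.maximalIdeal O) (O ⧸ Ideal.span (Set.range t)))
      (fun a ha x => Subtype.ext (x.2 a ha))
    rw [hn] at g4
    exact ⟨((g.trans g2).trans g3).trans g4⟩

end CMT
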