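import Pool.Agent.H43.CM.G.Defs

/-!
# JOB CM-G06 : homogeneous ideals of a positively graded polynomial ring

All weights `w i ≥ 1`.  `comp m f = weightedHomogeneousComponent w m f`.
* `comp_mul_hom` : if `s` is homogeneous of weight `k` then `comp m (s * f) = s * comp (m - k) f` for
  `k ≤ m` and `= 0` for `m < k`.  (Coefficients, or: write `f` as the finite sum of its components
  `sum_weightedHomogeneousComponent`, products of homogeneous elements are homogeneous
  `IsWeightedHomogeneous.mul`, and `weightedHomogeneousComponent_of_isWeightedHomogeneous_same / _ne`.)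
* `hom_sup` : if `I` is homogeneous and all elements of `S` are homogeneous then `I ⊔ span S` is
  homogeneous.  (`Submodule.span_induction` for `span S` with `comp_mul_hom`, and `Submodule.mem_sup`.)
* `comp_mul` : `comp m (h g) = ∑_{b ≤ m} comp (m-b) h * comp b g`.
* `hom_descend` : `J` homogeneous, `h` with nonzero constant coefficient, `h g ∈ J`. Then `g ∈ J`.
  Proof: show `comp m g ∈ J` by strong induction on `m`.  By `comp_mul`, modulo `J`:
  `0 = comp m (h g) = comp 0 h * comp m g`, and `comp 0 h = C (constantCoeff h)`
  (`weightedHomogeneousComponent_zero`, all weights are nonzero).  Multiply by `C (constantCoeff h)⁻¹`.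
-/

open MvPolynomial

noncomputable section

namespace CMT

variable {ι : Type} [Finite ι] (w : ι → ℕ)

theorem comp_mul_hom (s f : MvPolynomial ι ℂ) (k : ℕ) (hs : IsWeightedHomogeneous w s k) (m : ℕ) :
    weightedHomogeneousComponent w m (s * f) =
      if k ≤ m then s * weightedHomogeneousComponent w (m - k) f else 0 := by
  classical
  ext d
  rw [coeff_weightedHomogeneousComponent, coeff_mul]
  have key : ∀ x ∈ Finset.HasAntidiagonal.antidiagonal d, coeff x.1 s ≠ 0 →
      Finsupp.weight w d = k + Finsupp.weight w x.2 := by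
    intro x hx h0
    rw [← Finset.HasAntidiagonal.mem_antidiagonal.1 hx, map_add, hs h0]
  by_cases hk : k ≤ m
  · rw [if_pos hk, coeff_mul]
    split_ifs with hd
    · refine Finset.sum_congr rfl fun x hx => ?_
      rw [coeff_weightedHomogeneousComponent]
      by_cases h0 : coeff x.1 s = 0
      · rw [h0, zero_mul, zero_mul]
      · have h1 := key x hx h0
        rw [if_pos (by omega)]
    · symm
      refine Finset.sum_eq_zero fun x hx => ?_
      rw [coeff_weightedHomogeneousComponent]
      by_cases h0 : coeff x.1 s = 0
      · rw [h0, zero_mul]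
      · have h1 := key x hx h0
        rw [if_neg (by omega), mul_zero]
  · rw [if_neg hk, coeff_zero]
    split_ifs with hd
    · refine Finset.sum_eq_zero fun x hx => ?_
      by_cases h0 : coeff x.1 s = 0
      · rw [h0, zero_mul]
      · have h1 := key x hx h0
        omega
    · rfl

theorem comp_mul (h g : MvPolynomial ι ℂ) (m : ℕ) :
    weightedHomogeneousComponent w m (h * g) =
      ∑ b ∈ Finset.range (m + 1), weightedHomogeneousComponent w (m - b) h *
        weightedHomogeneousComponent w b g := by
  classical
  ext d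
  rw [coeff_weightedHomogeneousComponent, coeff_mul, coeff_sum]
  simp only [coeff_mul, coeff_weightedHomogeneousComponent]
  rw [Finset.sum_comm]
  have key : ∀ x ∈ Finset.HasAntidiagonal.antidiagonal d,
      Finsupp.weight w d = Finsupp.weight w x.1 + Finsupp.weight w x.2 := by
    intro x hx
    rw [← Finset.HasAntidiagonal.mem_antidiagonal.1 hx, map_add]
  split_ifs with hd
  · refine Finset.sum_congr rfl fun x hx => ?_
    have h1 := key x hx
    rw [Finset.sum_eq_single (Finsupp.weight w x.2)]
    · rw [if_pos (by omega), if_pos rfl]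
    · intro b _ hb
      rw [if_neg (Ne.symm hb), mul_zero]
    · intro hb
      exact absurd (Finset.mem_range.2 (by omega)) hb
  · symm
    refine Finset.sum_eq_zero fun x hx => Finset.sum_eq_zero fun b hb => ?_
    have h1 := key x hx
    have h2 := Finset.mem_range.1 hb
    by_cases h3 : Finsupp.weight w x.2 = b
    · rw [if_neg (by omega), zero_mul]
    · rw [if_neg h3, mul_zero]

theorem homog_span (S : Set (MvPolynomial ι ℂ))
    (hS : ∀ s ∈ S, ∃ k, IsWeightedHomogeneous w s k) (f : MvPolynomial ι ℂ)
    (hf : f ∈ Ideal.span S) : ∀ m, weightedHomogeneousComponent w m f ∈ Ideal.span S := by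
  classical
  refine Submodule.span_induction (p := fun f _ => ∀ m, weightedHomogeneousComponent w m f ∈
    Ideal.span S) ?_ ?_ ?_ ?_ hf
  · intro s hs m
    obtain ⟨k, hk⟩ := hS s hs
    have h1 := comp_mul_hom w s 1 k hk m
    rw [mul_one] at h1
    rw [h1]
    split_ifs
    · exact Ideal.mul_mem_right _ _ (Ideal.subset_span hs)
    · exact zero_mem _
  · intro m
    rw [map_zero]
    exact zero_mem _
  · intro x y _ _ hx hy m
    rw [map_add]
    exact add_mem (hx m) (hy m)
  · intro a x _ hx m
    rw [smul_eq_mul, comp_mul]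
    exact Submodule.sum_mem _ fun b _ => Ideal.mul_mem_left _ _ (hx b)

theorem hom_sup (I : Ideal (MvPolynomial ι ℂ))
    (hI : ∀ f ∈ I, ∀ m, weightedHomogeneousComponent w m f ∈ I) (S : Set (MvPolynomial ι ℂ))
    (hS : ∀ s ∈ S, ∃ k, IsWeightedHomogeneous w s k) :
    ∀ f ∈ I ⊔ Ideal.span S, ∀ m, weightedHomogeneousComponent w m f ∈ I ⊔ Ideal.span S := by
  intro f hf m
  obtain ⟨a, ha, b, hb, rfl⟩ := Submodule.mem_sup.1 hf
  rw [map_add]
  exact add_mem ((le_sup_left : I ≤ _) (hI a ha m))
    ((le_sup_right : Ideal.span S ≤ _) (homog_span w S hS b hb m))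

theorem hom_descend (hw : ∀ i, 1 ≤ w i) (J : Ideal (MvPolynomial ι ℂ))
    (hJ : ∀ f ∈ J, ∀ m, weightedHomogeneousComponent w m f ∈ J) (h g : MvPolynomial ι ℂ)
    (h0 : constantCoeff h ≠ 0) (hg : h * g ∈ J) : g ∈ J := by
  have key : ∀ m, weightedHomogeneousComponent w m g ∈ J := by
    intro m
    induction m using Nat.strong_induction_on with
    | _ m ih =>
      have h1 := hJ _ hg m
      rw [comp_mul, Finset.sum_range_succ] at h1
      have h2 : ∑ b ∈ Finset.range m, weightedHomogeneousComponent w (m - b) h *
          weightedHomogeneousComponent w b g ∈ J :=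
        Submodule.sum_mem _ fun b hb => Ideal.mul_mem_left _ _ (ih b (Finset.mem_range.1 hb))
      have h3 := (Submodule.add_mem_iff_right J h2).1 h1
      rw [Nat.sub_self, weightedHomogeneousComponent_zero h
        (fun i => Nat.one_le_iff_ne_zero.1 (hw i))] at h3
      have h4 := Ideal.mul_mem_left J (C (constantCoeff h)⁻¹) h3
      rw [← mul_assoc, ← C_mul, ← constantCoeff_eq, inv_mul_cancel₀ h0, C_1, one_mul] at h4
      exact h4
  rw [← sum_weightedHomogeneousComponent w g]
  exact finsum_induction (fun x => x ∈ J) (zero_mem _) (fun x y hx hy => add_mem hx hy) key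

end CMT
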