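import Pool.Agent.H43.CM.G.Defs

/-!
# JOB CM-G16 : `R/J = R_m / J R_m` if `m^N ≤ J ≤ m`, `m` maximal

The `R`-linear map `R ⧸ J → O ⧸ J.map` (`O = Localization.AtPrime m`), `Submodule.mapQ` or `Ideal.quotientMap`.
Key: every `s ∉ m` is invertible modulo `J`: `m + (s) = ⊤`, so `m^N + (s) = ⊤` (`Ideal.IsCoprime.pow`, `Ideal.isCoprime_iff_add`),
so `1 = y + s s'` with `y ∈ m^N ≤ J`.
Injective: `algebraMap x ∈ J.map` means `s x ∈ J` for some `s ∉ m` (`IsLocalization.mem_map_algebraMap_iff`,
`IsLocalization.eq_iff_exists`), so `x = y x + s' s x ∈ J`.  Surjective: `a/s = a s' + a y / s` modulo..: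
`mk' a s - algebraMap (a s') = mk' (a y) s ∈ J.map`.
-/

noncomputable section

namespace CMT

theorem locQuot_key {R : Type} [CommRing R] (m : Ideal R) [hm : m.IsMaximal] (J : Ideal R)
    (N : ℕ) (hN : m ^ N ≤ J) (s : R) (hs : s ∉ m) : ∃ y ∈ J, ∃ s' : R, 1 = y + s * s' := by
  have h1 : IsCoprime m (Ideal.span {s}) := by
    rw [Ideal.isCoprime_iff_sup_eq]
    by_contra hne
    have h2 := hm.eq_of_le hne le_sup_left
    apply hs
    rw [h2]
    exact Ideal.mem_sup_right (Ideal.mem_span_singleton_self s)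
  have h3 : IsCoprime (m ^ N) (Ideal.span {s}) := IsCoprime.pow_left h1
  obtain ⟨y, hy, z, hz, hyz⟩ := Ideal.isCoprime_iff_exists.mp h3
  obtain ⟨s', rfl⟩ := Ideal.mem_span_singleton'.mp hz
  exact ⟨y, hN hy, s', by rw [← hyz]; ring⟩

theorem locQuot {R : Type} [CommRing R] (m : Ideal R) [m.IsMaximal] (J : Ideal R) (hJ : J ≤ m)
    (N : ℕ) (hN : m ^ N ≤ J) :
    ∃ ε : (R ⧸ J) ≃ₗ[R] (Localization.AtPrime m ⧸ J.map (algebraMap R (Localization.AtPrime m))),
      ∀ x : R, ε (Ideal.Quotient.mk J x) = Ideal.Quotient.mk _ (algebraMap R _ x) := by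
  let O := Localization.AtPrime m
  let K : Ideal O := J.map (algebraMap R O)
  let g : R →ₗ[R] (O ⧸ K) :=
    (Algebra.linearMap O (O ⧸ K)).restrictScalars R ∘ₗ Algebra.linearMap R O
  have hg : ∀ x : R, g x = Ideal.Quotient.mk K (algebraMap R O x) := fun x => rfl
  have hker : J ≤ LinearMap.ker g := by
    intro x hx
    rw [LinearMap.mem_ker, hg, Ideal.Quotient.eq_zero_iff_mem]
    exact Ideal.mem_map_of_mem _ hx
  let f : (R ⧸ J) →ₗ[R] (O ⧸ K) := Submodule.liftQ J g hker
  have hf : ∀ x : R, f (Ideal.Quotient.mk J x) = Ideal.Quotient.mk K (algebraMap R O x) :=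
    fun x => rfl
  have hinj : Function.Injective f := by
    rw [injective_iff_map_eq_zero]
    intro a ha
    obtain ⟨x, rfl⟩ := Ideal.Quotient.mk_surjective a
    rw [hf, Ideal.Quotient.eq_zero_iff_mem] at ha
    rw [Ideal.Quotient.eq_zero_iff_mem]
    obtain ⟨⟨j, s⟩, hjs⟩ := (IsLocalization.mem_map_algebraMap_iff m.primeCompl O).mp ha
    have h4 : algebraMap R O (x * (s : R)) = algebraMap R O (j : R) := by
      rw [map_mul]; exact hjs
    obtain ⟨c, hc⟩ := (IsLocalization.eq_iff_exists m.primeCompl O).mp h4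
    have hcs : (c : R) * (s : R) ∉ m := fun h => (m.primeCompl.mul_mem c.2 s.2) h
    obtain ⟨y, hy, s', h1⟩ := locQuot_key m J N hN _ hcs
    have h5 : x = y * x + s' * ((c : R) * (j : R)) := by
      rw [← hc]
      calc x = 1 * x := (one_mul x).symm
        _ = (y + (c : R) * (s : R) * s') * x := by rw [← h1]
        _ = _ := by ring
    rw [h5]
    exact J.add_mem (J.mul_mem_right _ hy) (J.mul_mem_left _ (J.mul_mem_left _ j.2))
  have hsurj : Function.Surjective f := by
    intro b
    obtain ⟨z, rfl⟩ := Ideal.Quotient.mk_surjective b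
    obtain ⟨a, s, rfl⟩ := IsLocalization.exists_mk'_eq m.primeCompl z
    obtain ⟨y, hy, s', h1⟩ := locQuot_key m J N hN (s : R) (fun h => s.2 h)
    refine ⟨Ideal.Quotient.mk J (a * s'), ?_⟩
    rw [hf, eq_comm, Ideal.Quotient.eq]
    have h6 : IsLocalization.mk' O a s - algebraMap R O (a * s') =
        algebraMap R O y * IsLocalization.mk' O a s := by
      have h7 : IsLocalization.mk' O a s * algebraMap R O (s : R) = algebraMap R O a :=
        IsLocalization.mk'_spec O a s
      have h8 : (1 : O) = algebraMap R O y + algebraMap R O (s : R) * algebraMap R O s' := by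
        rw [← map_mul, ← map_add, ← h1, map_one]
      rw [map_mul, ← h7]
      calc IsLocalization.mk' O a s - IsLocalization.mk' O a s * algebraMap R O (s : R) *
            algebraMap R O s' = IsLocalization.mk' O a s * (1 - algebraMap R O (s : R) *
            algebraMap R O s') := by ring
        _ = IsLocalization.mk' O a s * algebraMap R O y := by rw [h8]; ring
        _ = _ := mul_comm _ _
    rw [h6]
    exact K.mul_mem_right _ (Ideal.mem_map_of_mem _ hy)
  exact ⟨LinearEquiv.ofBijective f ⟨hinj, hsurj⟩, fun x => hf x⟩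

end CMT
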