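import Pool.Agent.H43.CM.G.Soc
import Pool.Agent.H43.CM.G.LocQuot
import Pool.Agent.H43.CM.G.CanRed

/-!
# JOB CM-G18 : the socle of the localization

`R` a `ℂ`-algebra, `m` maximal, `O = Localization.AtPrime m`, `J = span (range t) ≤ m`, `m^N ≤ J`.
* `locQuot` gives the `R`-linear (so `ℂ`-linear) isomorphism `ε : R ⧸ J ≃ O ⧸ J.map`, and `J.map` is the span of the
  images (`Ideal.map_span`, `Set.range_comp`).
* `soc_loc` : `ε` maps `soc m (R ⧸ J)` onto `soc 𝔪_O (O ⧸ ..)`: an element is killed by `𝔪_O = m.map` iff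
  it is killed by the images of `m` (`Localization.AtPrime.map_eq_maximalIdeal`, `Submodule.span_induction`).  So the
  `ℂ`-dimensions agree (`LinearEquiv.finrank_eq`; restrict `ε` to a `ℂ`-linear equivalence of the two submodules).
* `residue_loc` : every `x : O` is `c` + an element of `𝔪_O`: surjectivity of `ε` for `J = m` (or for `J`), and the hypothesis.
-/

noncomputable section

namespace CMT

variable {R : Type} [CommRing R] [Algebra ℂ R] {d : ℕ} (t : Fin d → R) (m : Ideal R)
  [hm : m.IsPrime]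

omit [Algebra ℂ R] in
theorem SocLoc_mem (J : Ideal R)
    (ε : (R ⧸ J) ≃ₗ[R] (Localization.AtPrime m ⧸ J.map (algebraMap R (Localization.AtPrime m))))
    (x : R ⧸ J) :
    x ∈ soc m (R ⧸ J) ↔ ε x ∈ soc (IsLocalRing.maximalIdeal (Localization.AtPrime m))
      (Localization.AtPrime m ⧸ J.map (algebraMap R (Localization.AtPrime m))) := by
  have hsm : ∀ (r : R), algebraMap R (Localization.AtPrime m) r • ε x = ε (r • x) := by
    intro r
    rw [algebraMap_smul, map_smul]
  constructor
  · intro hx a ha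
    rw [← Localization.AtPrime.map_eq_maximalIdeal, Ideal.map] at ha
    induction ha using Submodule.span_induction with
    | mem a ha =>
      obtain ⟨r, hr, rfl⟩ := ha
      have h1 : r • x = 0 := hx r hr
      rw [hsm, h1, map_zero]
    | zero => rw [zero_smul]
    | add a b _ _ ha hb => rw [add_smul, ha, hb, add_zero]
    | smul c a _ ha => rw [smul_assoc, ha, smul_zero]
  · intro hx r hr
    apply ε.injective
    rw [← hsm, map_zero]
    apply hx
    rw [← Localization.AtPrime.map_eq_maximalIdeal]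
    exact Ideal.mem_map_of_mem _ hr

theorem SocLoc_aux (hmax : m.IsMaximal) (J : Ideal R) (hJ : J ≤ m) (N : ℕ)
    (hN : m ^ N ≤ J) (hfin : Module.Finite ℂ (R ⧸ J)) (J' : Ideal (Localization.AtPrime m))
    (hJ' : J.map (algebraMap R (Localization.AtPrime m)) = J') :
    Module.Finite ℂ (soc (IsLocalRing.maximalIdeal (Localization.AtPrime m))
      (Localization.AtPrime m ⧸ J')) ∧
    Module.finrank ℂ (soc (IsLocalRing.maximalIdeal (Localization.AtPrime m))
      (Localization.AtPrime m ⧸ J')) =
    Module.finrank ℂ (soc m (R ⧸ J)) := by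
  subst hJ'
  obtain ⟨ε, hε⟩ := locQuot m J hJ N hN
  let e : (R ⧸ J) ≃ₗ[ℂ]
      (Localization.AtPrime m ⧸ J.map (algebraMap R (Localization.AtPrime m))) :=
    ε.restrictScalars ℂ
  have hmap : ((soc m (R ⧸ J)).restrictScalars ℂ).map (e : (R ⧸ J) →ₗ[ℂ] _) =
      (soc (IsLocalRing.maximalIdeal (Localization.AtPrime m))
        (Localization.AtPrime m ⧸
          J.map (algebraMap R (Localization.AtPrime m)))).restrictScalars ℂ := by
    ext y
    constructor
    · rintro ⟨x, hx, rfl⟩
      exact (SocLoc_mem m J ε x).1 hx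
    · intro hy
      refine ⟨e.symm y, ?_, e.apply_symm_apply y⟩
      refine (SocLoc_mem m J ε (e.symm y)).2 ?_
      have h2 : ε (e.symm y) = y := e.apply_symm_apply y
      rw [h2]
      exact hy
  have e2 := LinearEquiv.ofSubmodules e _ _ hmap
  have hf : Module.Finite ℂ ((soc m (R ⧸ J)).restrictScalars ℂ) := inferInstance
  exact ⟨Module.Finite.equiv e2, e2.finrank_eq.symm⟩

theorem soc_loc (hmax : m.IsMaximal) (ht : ∀ i, t i ∈ m) (N : ℕ)
    (hN : m ^ N ≤ Ideal.span (Set.range t))
    (hfin : Module.Finite ℂ (R ⧸ Ideal.span (Set.range t))) :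
    Module.Finite ℂ (soc (IsLocalRing.maximalIdeal (Localization.AtPrime m))
      (Localization.AtPrime m ⧸
        Ideal.span (Set.range fun i => algebraMap R (Localization.AtPrime m) (t i)))) ∧
    Module.finrank ℂ (soc (IsLocalRing.maximalIdeal (Localization.AtPrime m))
      (Localization.AtPrime m ⧸
        Ideal.span (Set.range fun i => algebraMap R (Localization.AtPrime m) (t i)))) =
    Module.finrank ℂ (soc m (R ⧸ Ideal.span (Set.range t))) := by
  refine SocLoc_aux m hmax _ ?_ N hN hfin _ ?_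
  · rw [Ideal.span_le]
    rintro _ ⟨i, rfl⟩
    exact ht i
  · rw [Ideal.map_span, ← Set.range_comp]
    rfl

theorem residue_loc (hmax : m.IsMaximal) (hres : ∀ x : R, ∃ c : ℂ, x - algebraMap ℂ R c ∈ m)
    (x : Localization.AtPrime m) :
    ∃ c : ℂ, x - algebraMap ℂ (Localization.AtPrime m) c ∈
      IsLocalRing.maximalIdeal (Localization.AtPrime m) := by
  obtain ⟨ε, hε⟩ := locQuot m m le_rfl 1 (by rw [pow_one])
  obtain ⟨y, hy⟩ := ε.surjective (Ideal.Quotient.mk _ x)
  obtain ⟨r, rfl⟩ := Ideal.Quotient.mk_surjective y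
  rw [hε] at hy
  obtain ⟨c, hc⟩ := hres r
  refine ⟨c, ?_⟩
  rw [← Localization.AtPrime.map_eq_maximalIdeal]
  have h1 := Ideal.Quotient.eq.1 hy
  have h2 := Ideal.mem_map_of_mem (algebraMap R (Localization.AtPrime m)) hc
  rw [map_sub, ← IsScalarTower.algebraMap_apply ℂ R (Localization.AtPrime m)] at h2
  have h3 := Ideal.sub_mem _ h2 h1
  have h4 : x - algebraMap ℂ (Localization.AtPrime m) c =
      algebraMap R (Localization.AtPrime m) r - algebraMap ℂ (Localization.AtPrime m) c -
        (algebraMap R (Localization.AtPrime m) r - x) := by ring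
  rw [h4]
  exact h3

end CMT
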