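import Pool.Agent.H43.CM.G.FinFree
import Pool.Agent.H43.CM.G.HasTy
import Pool.Agent.H43.CM.G.SocLoc

/-!
# MP_7fe4b4_ag, (G4) the type formula
-/

open MvPolynomial

noncomputable section

namespace CMT

theorem gradedCM_res {ι : Type} [Finite ι] {w : ι → ℕ} {I : Ideal (MvPolynomial ι ℂ)} {d : ℕ}
    {th : Fin d → MvPolynomial ι ℂ} (h : GradedCM w I d th) (x : MvPolynomial ι ℂ ⧸ I) :
    ∃ c : ℂ, x - algebraMap ℂ (MvPolynomial ι ℂ ⧸ I) c ∈ mX I := by
  obtain ⟨f, rfl⟩ := Ideal.Quotient.mk_surjective x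
  refine ⟨constantCoeff f, ?_⟩
  have h1 : algebraMap ℂ (MvPolynomial ι ℂ ⧸ I) (constantCoeff f) =
      Ideal.Quotient.mk I (C (constantCoeff f)) := rfl
  rw [h1, ← map_sub, mX_mem h, map_sub, constantCoeff_C, sub_self]

theorem gradedCM_type {ι : Type} [Finite ι] (w : ι → ℕ) (I : Ideal (MvPolynomial ι ℂ)) (d : ℕ)
    (th : Fin d → MvPolynomial ι ℂ) (h : GradedCM w I d th)
    [hm : (Ideal.span (Set.range fun e => Ideal.Quotient.mk I (X e) :
      Set (MvPolynomial ι ℂ ⧸ I))).IsPrime]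
    (W : Type) [AddCommGroup W] [Module (MvPolynomial ι ℂ ⧸ I) W]
    [Module ℂ W] [IsScalarTower ℂ (MvPolynomial ι ℂ ⧸ I) W]
    (hW : CanDual (betG I d th) W) :
    HasType (Localization.AtPrime (Ideal.span (Set.range fun e => Ideal.Quotient.mk I (X e)) :
      Ideal (MvPolynomial ι ℂ ⧸ I))) d
      (Module.finrank ℂ (W ⧸ ((Ideal.span (Set.range fun e => Ideal.Quotient.mk I (X e)) :
        Ideal (MvPolynomial ι ℂ ⧸ I)) • (⊤ : Submodule (MvPolynomial ι ℂ ⧸ I) W)))) := by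
  have hmax : (mX I).IsMaximal := mX_isMaximal h
  obtain ⟨r, e, he⟩ := gradedCM_expand h
  obtain ⟨N, hN⟩ := mX_pow_le h
  have hNoe : IsNoetherianRing (MvPolynomial ι ℂ ⧸ I) := inferInstance
  have hNoe2 : IsNoetherianRing (Localization.AtPrime (mX I)) :=
    IsLocalization.isNoetherianRing (mX I).primeCompl _ hNoe
  have hd := dep_localization (mX I) d h.dep
  have hres := residue_loc (mX I) hmax (gradedCM_res h)
  set t : Fin d → MvPolynomial ι ℂ ⧸ I := fun i => Ideal.Quotient.mk I (th i) with ht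
  have hfin : Module.Finite ℂ ((MvPolynomial ι ℂ ⧸ I) ⧸ Ideal.span (Set.range t)) :=
    expand_finite t r e he
  obtain ⟨Ψ, hΨ, hsurj, hker⟩ := canDual_reduce t r e he W hW
  have hle : Ideal.span (Set.range t) ≤ mX I := by
    rw [Ideal.span_le]
    rintro x ⟨i, rfl⟩
    exact th_mem h i
  have hfr := finrank_dual_soc (k := ℂ) (mX I)
    ((MvPolynomial ι ℂ ⧸ I) ⧸ Ideal.span (Set.range t)) W Ψ hΨ hsurj
    (fun w hw => Submodule.smul_mono_left hle (hker w hw))
  obtain ⟨hf1, hf2⟩ := soc_loc t (mX I) hmax (th_mem h) N hN hfin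
  exact hasType_of d (gradedCM_dim h) hd _ (gradedCM_loc h).1 (gradedCM_locRegFam h) hres hf1 _
    (hf2.trans hfr.symm)

end CMT
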