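import Pool.Agent.H43.CM.G.Pow
import Pool.Agent.H43.CM.G.FinFree
import Pool.Agent.H43.CM.G.Type
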