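import Pool.Agent.H43.CM.G.RegFam

/-!
# JOB CM-G08 : linear independence over the polynomial ring in a regular family

`k` a field, `R` a commutative `k`-algebra, `t : Fin d → R` a regular family, `e : κ → R` (`κ` finite) whose images
in `R ⧸ (t)` are linearly independent over `k`.  If `∑ᵢ pᵢ(t) eᵢ = 0` with `pᵢ ∈ k[Y_0..Y_{d-1}]` then all `pᵢ = 0`.

Proof. Induction on `d` for all `R`.  `d = 0`: `MvPolynomial (Fin 0) k ≃ k` (`MvPolynomial.isEmptyAlgEquiv`,
`eq_C_of_isEmpty`), `(t) = ⊥`, and this is the linear independence over `k` (in `R ⧸ ⊥`; from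
`∑ c_i e_i = 0` in `R` follows the relation in the quotient).
`d = n + 1`: `R' = R ⧸ span {t 0}`, `t' i = mk (t i.succ)` (`i : Fin n`), `e' = mk ∘ e`.
* `RegFam t'`: `t'_j x' ∈ (t'_i : i < j)` lifts to `t_{j+1} x ∈ (t_0) + (t_i : 1 ≤ i < j+1) = jid t (j+1)` etc.
* `R' ⧸ (t') ≃ R ⧸ (t)` (`DoubleQuot.quotQuotEquivQuotSup` or directly: a `k`-linear relation among the `e'_i` mod `(t')`
  gives `∑ c_i e_i ∈ (t)`).
* `t 0` is a nonzerodivisor of `R` (the condition for `j = 0`, `jid_zero`).
Use `MvPolynomial.finSuccEquiv k n : MvPolynomial (Fin (n+1)) k ≃ₐ[k] Polynomial (MvPolynomial (Fin n) k)` which sends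
`X 0` to `Polynomial.X` and `X i.succ` to `Polynomial.C (X i)`; write `pᵢ` as a polynomial `qᵢ` in `Y = Y_0`.
Claim: for all `N`, all families `(pᵢ)` with `natDegree qᵢ < N` for all `i` and `∑ pᵢ(t) eᵢ = 0` vanish.
Induct on `N`; `N = 0` trivial (or `natDegree < N+1` to start with).
Reduce modulo `t 0`: `∑ (coeff qᵢ 0)(t') e'ᵢ = 0`, so `coeff qᵢ 0 = 0` by the induction hypothesis on `d`.  So
`pᵢ = X 0 * pᵢ'` (`Polynomial.divX`), `t 0 * ∑ pᵢ'(t) eᵢ = 0`, so `∑ pᵢ'(t) eᵢ = 0`, and the degrees dropped
(or `qᵢ = 0`); so `pᵢ' = 0`.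
-/

open MvPolynomial

noncomputable section

namespace CMT

private lemma ind_jid {R : Type} [CommRing R] {n : ℕ} (t : Fin (n + 1) → R) (j : ℕ) (x : R) :
    Ideal.Quotient.mk (Ideal.span {t 0}) x ∈
      jid (fun i : Fin n => Ideal.Quotient.mk (Ideal.span {t 0}) (t i.succ)) j ↔
    x ∈ jid t (j + 1) := by
  have h1 : jid (fun i : Fin n => Ideal.Quotient.mk (Ideal.span {t 0}) (t i.succ)) j =
      (Ideal.span ((fun i : Fin n => t i.succ) '' {i | i.val < j})).map
        (Ideal.Quotient.mk (Ideal.span {t 0})) := by
    unfold jid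
    rw [Ideal.map_span, Set.image_image]
  have h2 : jid t (j + 1) =
      Ideal.span ((fun i : Fin n => t i.succ) '' {i | i.val < j}) ⊔ Ideal.span {t 0} := by
    unfold jid
    rw [← Ideal.span_union]
    congr 1
    ext y
    constructor
    · rintro ⟨i, hi, rfl⟩
      refine Fin.cases ?_ (fun l hl => ?_) i hi
      · intro _
        right
        rfl
      · left
        refine ⟨l, ?_, rfl⟩
        have : (l.succ : Fin (n + 1)).val < j + 1 := hl
        rw [Fin.val_succ] at this
        exact Nat.lt_of_succ_lt_succ this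
    · rintro (⟨i, hi, rfl⟩ | hy)
      · refine ⟨i.succ, ?_, rfl⟩
        change (i.succ : Fin (n + 1)).val < j + 1
        rw [Fin.val_succ]
        exact Nat.succ_lt_succ hi
      · rw [Set.mem_singleton_iff] at hy
        refine ⟨0, ?_, hy.symm⟩
        change ((0 : Fin (n + 1)).val) < j + 1
        simp
  rw [h1, h2, ← Ideal.mem_comap, Ideal.comap_map_of_surjective' _ Ideal.Quotient.mk_surjective,
    Ideal.mk_ker]

theorem regFam_succ {R : Type} [CommRing R] {n : ℕ} (t : Fin (n + 1) → R) (ht : RegFam t) :
    RegFam (fun i : Fin n => Ideal.Quotient.mk (Ideal.span {t 0}) (t i.succ)) := by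
  intro j x hx
  obtain ⟨y, rfl⟩ := Ideal.Quotient.mk_surjective x
  rw [← map_mul, ind_jid] at hx
  rw [ind_jid]
  have := ht j.succ y
  rw [Fin.val_succ] at this
  exact this hx

theorem regFam_zero {R : Type} [CommRing R] {n : ℕ} (t : Fin (n + 1) → R) (ht : RegFam t) (x : R)
    (hx : t 0 * x = 0) : x = 0 := by
  have h := ht 0 x
  have e : ((0 : Fin (n + 1)).val) = 0 := rfl
  rw [e, jid_zero] at h
  exact h hx

private lemma ind_coeff {k : Type} [Field k] {n : ℕ} {R : Type} [CommRing R] [Algebra k R]
    (t : Fin (n + 1) → R) (p : MvPolynomial (Fin (n + 1)) k) :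
    Ideal.Quotient.mk (Ideal.span {t 0}) (aeval t p) =
      aeval (fun i : Fin n => Ideal.Quotient.mk (Ideal.span {t 0}) (t i.succ))
        ((finSuccEquiv k n p).coeff 0) := by
  induction p using MvPolynomial.induction_on with
  | C a =>
    have h1 : finSuccEquiv k n (C a) = Polynomial.C (C a) := by
      have := (finSuccEquiv k n).commutes a
      rw [MvPolynomial.algebraMap_eq] at this
      rw [this]
      rfl
    rw [h1, Polynomial.coeff_C_zero, aeval_C, aeval_C]
    rfl
  | add p q hp hq =>
    rw [map_add, map_add, map_add, Polynomial.coeff_add, map_add, hp, hq]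
  | mul_X p i hp =>
    rw [map_mul, map_mul, map_mul, hp, aeval_X]
    refine Fin.cases ?_ (fun j => ?_) i
    · rw [finSuccEquiv_X_zero, Polynomial.coeff_mul_X_zero, map_zero]
      have : Ideal.Quotient.mk (Ideal.span {t 0}) (t 0) = 0 :=
        Ideal.Quotient.eq_zero_iff_mem.mpr (Ideal.subset_span rfl)
      rw [this, mul_zero]
    · rw [finSuccEquiv_X_succ, Polynomial.coeff_mul_C, map_mul, aeval_X]

theorem regFam_independent {k : Type} [Field k] (d : ℕ) : ∀ {R : Type} [CommRing R] [Algebra k R]
    (t : Fin d → R) (_ : RegFam t) {κ : Type} [Fintype κ] (e : κ → R)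
    (_ : ∀ c : κ → k, (∑ i, algebraMap k R (c i) * e i) ∈ Ideal.span (Set.range t) → c = 0)
    (p : κ → MvPolynomial (Fin d) k) (_ : ∑ i, aeval t (p i) * e i = 0), p = 0 := by
  induction d with
  | zero =>
    intro R _ _ t ht κ _ e he p hp
    have h1 : ∀ i, p i = C (coeff 0 (p i)) := fun i => eq_C_of_isEmpty (p i)
    have h2 : (fun i => coeff 0 (p i)) = 0 := by
      apply he
      have : ∑ i, algebraMap k R (coeff 0 (p i)) * e i = ∑ i, aeval t (p i) * e i := by
        refine Finset.sum_congr rfl fun i _ => ?_
        conv_rhs => rw [h1 i]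
        rw [aeval_C]
      rw [this, hp]
      exact Ideal.zero_mem _
    funext i
    rw [h1 i]
    have := congrFun h2 i
    simp only [Pi.zero_apply] at this
    rw [this, C_0]
    rfl
  | succ n ih =>
    intro R _ _ t ht κ _ e he
    have hred : ∀ p : κ → MvPolynomial (Fin (n + 1)) k, ∑ i, aeval t (p i) * e i = 0 →
        ∀ i, (finSuccEquiv k n (p i)).coeff 0 = 0 := by
      intro p hp
      have := ih (R := R ⧸ Ideal.span {t 0})
        (fun i : Fin n => Ideal.Quotient.mk (Ideal.span {t 0}) (t i.succ)) (regFam_succ t ht)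
        (fun i => Ideal.Quotient.mk (Ideal.span {t 0}) (e i)) ?_
        (fun i => (finSuccEquiv k n (p i)).coeff 0) ?_
      · intro i
        exact congrFun this i
      · intro c hc
        apply he
        have h1 : (∑ i, algebraMap k (R ⧸ Ideal.span {t 0}) (c i) *
            Ideal.Quotient.mk (Ideal.span {t 0}) (e i)) =
            Ideal.Quotient.mk (Ideal.span {t 0}) (∑ i, algebraMap k R (c i) * e i) := by
          rw [map_sum]
          refine Finset.sum_congr rfl fun i _ => ?_
          rw [map_mul]
          rfl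
        rw [h1, ← jid_top, ind_jid, jid_top] at hc
        exact hc
      · have h1 := congrArg (Ideal.Quotient.mk (Ideal.span {t 0})) hp
        rw [map_sum, map_zero] at h1
        rw [← h1]
        refine Finset.sum_congr rfl fun i _ => ?_
        rw [map_mul, ind_coeff]
    have main : ∀ N : ℕ, ∀ p : κ → MvPolynomial (Fin (n + 1)) k,
        (∀ i, (finSuccEquiv k n (p i)).natDegree ≤ N) → ∑ i, aeval t (p i) * e i = 0 → p = 0 := by
      intro N
      induction N with
      | zero =>
        intro p hN hp
        funext i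
        have h0 := hred p hp i
        have h1 := Polynomial.eq_C_of_natDegree_le_zero (hN i)
        rw [h0, map_zero] at h1
        exact (map_eq_zero_iff _ (finSuccEquiv k n).injective).mp h1
      | succ N ihN =>
        intro p hN hp
        have h0 := hred p hp
        have hdiv : ∀ i, p i = X 0 * (finSuccEquiv k n).symm (finSuccEquiv k n (p i)).divX := by
          intro i
          apply (finSuccEquiv k n).injective
          rw [map_mul, finSuccEquiv_X_zero, AlgEquiv.apply_symm_apply]
          conv_lhs => rw [← Polynomial.divX_mul_X_add (finSuccEquiv k n (p i))]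
          rw [h0 i, map_zero, add_zero, mul_comm]
        have hz : (fun i => (finSuccEquiv k n).symm (finSuccEquiv k n (p i)).divX) = 0 := by
          apply ihN
          · intro i
            rw [AlgEquiv.apply_symm_apply, Polynomial.natDegree_divX_eq_natDegree_tsub_one]
            have := hN i
            omega
          · apply regFam_zero t ht
            rw [Finset.mul_sum, ← hp]
            refine Finset.sum_congr rfl fun i _ => ?_
            conv_rhs => rw [hdiv i]
            rw [map_mul, aeval_X, mul_assoc]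
        funext i
        rw [hdiv i]
        have := congrFun hz i
        simp only [Pi.zero_apply] at this
        rw [this, mul_zero]
        rfl
    intro p hp
    exact main (∑ i, (finSuccEquiv k n (p i)).natDegree) p
      (fun i => Finset.single_le_sum (f := fun i => (finSuccEquiv k n (p i)).natDegree)
        (fun _ _ => Nat.zero_le _) (Finset.mem_univ i)) hp

end CMT
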