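import Pool.Agent.H43.CM.C.DepRing
import Pool.Agent.H43.CM.C.DepLes

/-!
# JOB CM-G02 : depth is at most the dimension of every associated prime

`O` Noetherian local, `𝔪` its maximal ideal, `M` finite.

* `exists_bigger_prime` : `x ∈ 𝔪` is `M`-regular, `p` is associated to `M`. Then some prime `q`
  associated to `M / x M` contains `p` and `x`; and `x ∉ p`.
  Proof. `N = {z : p z = 0} ≠ 0` is a finite submodule of `M` (`p = ann(z)` for some `z ≠ 0`).
  `x ∉ p` because `x z = 0` would give `z = 0`.  Claim: `N` is not contained in `x M`. Otherwise let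
  `z ∈ N`, `z = x y`; for `a ∈ p`: `x (a y) = a z = 0` so `a y = 0`, so `y ∈ N`; so `N = x N` and
  `N = 0` by Nakayama (`Submodule.eq_bot_of_le_smul_of_le_jacobson_bot`, the ideal `(x)` is contained in the
  Jacobson radical of the local ring `O`). Contradiction. So there is `z ∈ N` whose image `z'` in
  `M / x M` is not zero; `p z' = 0` and `x z' = 0`.  The submodule `O z'` of `M / x M` is nonzero and
  has an associated prime `q` (`associatedPrimes.nonempty`, or `exists_le_isAssociatedPrime_of_isNoetherianRing`
  applied to `z'`: there is an associated prime `q` of `M / x M` with `ann(z') ≤ q`), and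
  `p ⊔ (x) ≤ ann(z') ≤ q`.
* `dep_le_dim` : induction on `e` for all `M, p`.  `e = 0`: the dimension of `O ⧸ p` is `≥ 0` since
  `p ≠ ⊤` (`ringKrullDim_nonneg_of_nontrivial`).  `e + 1`: a weakly regular sequence `x :: rs` in `𝔪`;
  `rs` is weakly regular on `M / x M`, so `Dep O 𝔪 (M / x M) e`.  Take `q` as above:
  `e ≤ dim O/q` by induction; and `dim O/q + 1 ≤ dim O/p`: `O ⧸ p` is a domain, the image of `x` in it is a
  nonzerodivisor, `ringKrullDim_quotient_succ_le_of_nonZeroDivisor` (in
  Mathlib.RingTheory.KrullDimension.NonZeroDivisors) gives `dim (O/p)/(x) + 1 ≤ dim O/p`, and there is a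
  surjection `(O/p)/(x) → O/q` (`ringKrullDim_le_of_surjective`).
-/

open scoped Pointwise

noncomputable section

namespace CMT

variable {O : Type} [CommRing O] [IsLocalRing O] [IsNoetherianRing O]

theorem exists_bigger_prime {M : Type} [AddCommGroup M] [Module O M] [Module.Finite O M] (x : O)
    (hx : x ∈ IsLocalRing.maximalIdeal O) (hreg : IsSMulRegular M x) (p : Ideal O)
    (hp : p ∈ associatedPrimes O M) :
    x ∉ p ∧ ∃ q ∈ associatedPrimes O (QuotSMulTop x M), p ≤ q ∧ x ∈ q := by
  obtain ⟨hprime, z, hz⟩ := isAssociatedPrime_iff.1 hp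
  have hmem : ∀ r, r ∈ p ↔ r • z = 0 := by
    intro r
    rw [hz, Submodule.mem_colon_singleton, Submodule.mem_bot]
  have hz0 : z ≠ 0 := by
    intro h
    apply hprime.ne_top
    rw [Ideal.eq_top_iff_one, hmem, h, smul_zero]
  refine ⟨fun h => hz0 (hreg ?_), ?_⟩
  · show x • z = x • 0
    rw [(hmem x).1 h, smul_zero]
  · let N : Submodule O M :=
      { carrier := {y | ∀ r ∈ p, r • y = 0}
        add_mem' := by
          intro a b ha hb r hr
          rw [smul_add, ha r hr, hb r hr, add_zero]
        zero_mem' := fun r _ => smul_zero r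
        smul_mem' := by
          intro c y hy r hr
          rw [smul_comm, hy r hr, smul_zero] }
    have hNmem : ∀ y, y ∈ N ↔ ∀ r ∈ p, r • y = 0 := fun y => Iff.rfl
    have hzN : z ∈ N := fun r hr => (hmem r).1 hr
    have hN : ¬ N ≤ x • (⊤ : Submodule O M) := by
      intro hle
      have hbot : N = ⊥ := by
        refine Submodule.eq_bot_of_le_smul_of_le_jacobson_bot (Ideal.span {x}) N
          (IsNoetherian.noetherian N) ?_ ?_
        · intro w hw
          obtain ⟨y, -, rfl⟩ := (Submodule.mem_smul_pointwise_iff_exists _ _ _).1 (hle hw)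
          refine Submodule.smul_mem_smul (Ideal.mem_span_singleton_self x) ?_
          intro r hr
          apply hreg
          show x • (r • y) = x • 0
          rw [smul_comm, hw r hr, smul_zero]
        · rw [IsLocalRing.jacobson_eq_maximalIdeal ⊥ bot_ne_top]
          exact (Ideal.span_singleton_le_iff_mem _).2 hx
      rw [hbot, Submodule.mem_bot] at hzN
      exact hz0 hzN
    obtain ⟨w, hwN, hw⟩ := Set.not_subset.1 hN
    have hw0 : (Submodule.Quotient.mk w : QuotSMulTop x M) ≠ 0 := by
      intro h
      exact hw ((Submodule.Quotient.mk_eq_zero _).1 h)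
    obtain ⟨q, hq, hle⟩ := exists_le_isAssociatedPrime_of_isNoetherianRing O
      (Submodule.Quotient.mk w : QuotSMulTop x M) hw0
    refine ⟨q, hq, fun r hr => hle ?_, hle ?_⟩
    · rw [Submodule.mem_colon_singleton, Submodule.mem_bot, ← Submodule.Quotient.mk_smul, hwN r hr,
        Submodule.Quotient.mk_zero]
    · rw [Submodule.mem_colon_singleton, Submodule.mem_bot, ← Submodule.Quotient.mk_smul,
        Submodule.Quotient.mk_eq_zero]
      exact Submodule.smul_mem_pointwise_smul _ _ _ Submodule.mem_top

theorem dep_le_dim (e : ℕ) : ∀ (M : Type) [AddCommGroup M] [Module O M] [Module.Finite O M]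
    (_ : Dep O (IsLocalRing.maximalIdeal O) M e) (p : Ideal O) (_ : p ∈ associatedPrimes O M),
    ((e : ℕ∞) : WithBot ℕ∞) ≤ ringKrullDim (O ⧸ p) := by
  induction e with
  | zero =>
    intro M _ _ _ _ p hp
    have : Nontrivial (O ⧸ p) := Ideal.Quotient.nontrivial_iff.2 hp.isPrime.ne_top
    simpa using ringKrullDim_nonneg_of_nontrivial (R := O ⧸ p)
  | succ e ih =>
    intro M _ _ _ hdep p hp
    obtain ⟨rs, hl, hI, hr⟩ := hdep
    match rs, hl, hI, hr with
    | [], hl, _, _ => exact absurd hl (by simp)
    | x :: rs, hl, hI, hr =>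
      rw [RingTheory.Sequence.isWeaklyRegular_cons_iff] at hr
      have hx : x ∈ IsLocalRing.maximalIdeal O := hI x (by simp)
      obtain ⟨hxp, q, hq, hpq, hxq⟩ := exists_bigger_prime x hx hr.1 p hp
      have h1 := ih (QuotSMulTop x M) ⟨rs, by simpa using hl, fun r h => hI r (by simp [h]), hr.2⟩ q hq
      have : p.IsPrime := hp.isPrime
      have h2 : ringKrullDim (O ⧸ q) + 1 ≤ ringKrullDim (O ⧸ p) := by
        refine ringKrullDim_succ_le_of_surjective (Ideal.Quotient.factor hpq)
          (Ideal.Quotient.factor_surjective hpq) (r := Ideal.Quotient.mk p x) ?_ ?_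
        · rw [mem_nonZeroDivisors_iff_ne_zero]
          intro h
          exact hxp (Ideal.Quotient.eq_zero_iff_mem.1 h)
        · rw [Ideal.Quotient.factor_mk]
          exact Ideal.Quotient.eq_zero_iff_mem.2 hxq
      refine le_trans ?_ h2
      push_cast at h1 ⊢
      gcongr

end CMT
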