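import Pool.Agent.H43.CM.G.RegFam
import Pool.Agent.H43.CM.G.Unmix
import Pool.Agent.H43.CM.G.Dim

/-!
# JOB CM-G04 : a system of `d` parameters in a local ring of depth `≥ d` is regular

`O` Noetherian local, `𝔪` its maximal ideal, `t_0..t_{d-1} ∈ 𝔪`, `𝔪^N ≤ (t)`, `Dep O 𝔪 O d`.
* `regFam_local` : `RegFam t`.  Proof: by induction on `j ≤ d` show: (`Dep O 𝔪 (O ⧸ jid t j) (d - j)`) and
  (the condition of `RegFam` for all `i < j`).  `j = 0`: `O ⧸ jid t 0 = O ⧸ ⊥ ≃ O` (`dep_congr`).
  Step: `M = O ⧸ jid t j`, `d - j = e + 1`.  Claim: `t j` is `IsSMulRegular` on `M`.  If not, `t j` lies in some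
  prime `p` associated to `M` (`biUnion_associatedPrimes_eq_compl_regular` or
  `biUnion_associatedPrimes_eq_zero_divisors`).  `p` contains `jid t j` (it kills `M`) and `t j`, so
  `jid t (j+1) ≤ p`, so `𝔪^N ≤ p ⊔ (t_i : j < i)`, these are at most `d - j - 1 = e` elements, so
  `dim O/p ≤ e` by `dim_quot_le`, but `e + 1 ≤ dim O/p` by `dep_le_dim`.  Contradiction.
  So the condition of `RegFam` holds for `j`, and `dep_quot` with `quotSMul_equiv`, `jid_succ`, `dep_congr` gives
  `Dep O 𝔪 (O ⧸ jid t (j+1)) e`.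
* `dim_local` : if moreover `O` is a domain then `ringKrullDim O = d`: `≤` is `dim_quot_le` for `p = ⊥`
  (`O ⧸ ⊥ ≃ O`), `≥` is `dep_le_dim` for `M = O` and `p = ⊥ = ann(1)`.
-/

noncomputable section

namespace CMT

variable {O : Type} [CommRing O] [IsLocalRing O] [IsNoetherianRing O]

theorem locReg_jid_le {d : ℕ} (t : Fin d → O) (j : Fin d) (p : Ideal O)
    (hp : p ∈ associatedPrimes O (O ⧸ jid t j.val)) : jid t j.val ≤ p := by
  refine le_trans (fun a ha => ?_) (IsAssociatedPrime.annihilator_le hp)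
  rw [Submodule.mem_annihilator]
  intro n _
  obtain ⟨x, rfl⟩ := Ideal.Quotient.mk_surjective n
  show a • (Ideal.Quotient.mk (jid t j.val)) x = 0
  rw [← Ideal.Quotient.mk_eq_mk, ← Submodule.Quotient.mk_smul, Submodule.Quotient.mk_eq_zero]
  exact Ideal.mul_mem_right _ _ ha

theorem locReg_reg {d : ℕ} (t : Fin d → O) (ht : ∀ i, t i ∈ IsLocalRing.maximalIdeal O) (N : ℕ)
    (hN : IsLocalRing.maximalIdeal O ^ N ≤ Ideal.span (Set.range t)) (j : Fin d)
    (h : Dep O (IsLocalRing.maximalIdeal O) (O ⧸ jid t j.val) (d - j.val)) :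
    IsSMulRegular (O ⧸ jid t j.val) (t j) := by
  classical
  by_contra hne
  have h1 : t j ∈ (⋃ p ∈ associatedPrimes O (O ⧸ jid t j.val), (p : Set O)) := by
    rw [biUnion_associatedPrimes_eq_compl_regular O (O ⧸ jid t j.val)]
    exact hne
  simp only [Set.mem_iUnion, SetLike.mem_coe, exists_prop] at h1
  obtain ⟨p, hp, htp⟩ := h1
  have hJ := locReg_jid_le t j p hp
  let S : Finset O := (Finset.univ.filter fun i : Fin d => j < i).image t
  have hS : S.card ≤ d - j.val - 1 := by
    refine Finset.card_image_le.trans ?_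
    have e : (Finset.univ.filter fun i : Fin d => j < i) = Finset.Ioi j := by
      ext i; simp
    rw [e, Fin.card_Ioi]
    omega
  have hSm : ∀ s ∈ S, s ∈ IsLocalRing.maximalIdeal O := by
    intro s hs
    obtain ⟨i, _, rfl⟩ := Finset.mem_image.1 hs
    exact ht i
  have hN' : IsLocalRing.maximalIdeal O ^ N ≤ p ⊔ Ideal.span (S : Set O) := by
    refine hN.trans (Ideal.span_le.2 ?_)
    rintro _ ⟨i, rfl⟩
    rcases lt_trichotomy i j with hi | hi | hi
    · refine (le_sup_left : p ≤ _) (hJ (Ideal.subset_span ⟨i, ?_, rfl⟩))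
      exact hi
    · rw [hi]
      exact (le_sup_left : p ≤ _) htp
    · refine (le_sup_right : Ideal.span (S : Set O) ≤ _) (Ideal.subset_span ?_)
      exact Finset.mem_coe.2 (Finset.mem_image_of_mem t (by simpa using hi))
  have h2 := dim_quot_le p (IsAssociatedPrime.isPrime hp).ne_top (d - j.val - 1) S hS hSm N hN'
  have h3 := dep_le_dim (d - j.val) _ h p hp
  have h4 := h3.trans h2
  have h5 : (d - j.val : ℕ) ≤ d - j.val - 1 := by exact_mod_cast h4
  have := j.isLt
  omega

theorem locReg_cond {d : ℕ} (t : Fin d → O) (j : Fin d)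
    (h : IsSMulRegular (O ⧸ jid t j.val) (t j)) (x : O) (hx : t j * x ∈ jid t j.val) :
    x ∈ jid t j.val := by
  have e : t j • (Ideal.Quotient.mk (jid t j.val)) x = t j • (0 : O ⧸ jid t j.val) := by
    rw [smul_zero, ← Ideal.Quotient.mk_eq_mk, ← Submodule.Quotient.mk_smul,
      Submodule.Quotient.mk_eq_zero]
    exact hx
  exact Ideal.Quotient.eq_zero_iff_mem.1 (h e)

theorem locReg_step {d : ℕ} (t : Fin d → O) (ht : ∀ i, t i ∈ IsLocalRing.maximalIdeal O) (N : ℕ)
    (hN : IsLocalRing.maximalIdeal O ^ N ≤ Ideal.span (Set.range t))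
    (h : Dep O (IsLocalRing.maximalIdeal O) O d) (j : ℕ) (hj : j ≤ d) :
    Dep O (IsLocalRing.maximalIdeal O) (O ⧸ jid t j) (d - j) ∧
      ∀ i : Fin d, i.val < j → ∀ x : O, t i * x ∈ jid t i.val → x ∈ jid t i.val := by
  induction j with
  | zero =>
    refine ⟨?_, fun i hi => absurd hi (Nat.not_lt_zero _)⟩
    have e : O ≃ₗ[O] O ⧸ jid t 0 :=
      ((Submodule.quotEquivOfEqBot (jid t 0) (jid_zero t))).symm
    exact dep_congr _ e d h
  | succ j ih =>
    obtain ⟨ih1, ih2⟩ := ih (by omega)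
    let jj : Fin d := ⟨j, by omega⟩
    have hreg : IsSMulRegular (O ⧸ jid t j) (t jj) := locReg_reg t ht N hN jj ih1
    refine ⟨?_, ?_⟩
    · have e1 : d - j = (d - (j + 1)) + 1 := by omega
      rw [e1] at ih1
      have h2 := dep_quot (IsLocalRing.maximalIdeal O) (t jj) (ht jj) hreg (d - (j + 1)) ih1
      obtain ⟨e⟩ := quotSMul_equiv (jid t j) (t jj)
      have h3 := dep_congr _ e _ h2
      have h4 : jid t (j + 1) = jid t j ⊔ Ideal.span {t jj} := jid_succ t jj
      rw [h4]
      exact h3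
    · intro i hi
      rcases Nat.lt_succ_iff_lt_or_eq.1 hi with hi' | hi'
      · exact ih2 i hi'
      · have : i = jj := Fin.ext hi'
        rw [this]
        exact locReg_cond t jj hreg

theorem regFam_local {d : ℕ} (t : Fin d → O) (ht : ∀ i, t i ∈ IsLocalRing.maximalIdeal O) (N : ℕ)
    (hN : IsLocalRing.maximalIdeal O ^ N ≤ Ideal.span (Set.range t))
    (h : Dep O (IsLocalRing.maximalIdeal O) O d) : RegFam t :=
  fun i => (locReg_step t ht N hN h d le_rfl).2 i i.isLt

theorem dim_local [IsDomain O] {d : ℕ} (t : Fin d → O)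
    (ht : ∀ i, t i ∈ IsLocalRing.maximalIdeal O) (N : ℕ)
    (hN : IsLocalRing.maximalIdeal O ^ N ≤ Ideal.span (Set.range t))
    (h : Dep O (IsLocalRing.maximalIdeal O) O d) : ringKrullDim O = ((d : ℕ∞) : WithBot ℕ∞) := by
  classical
  refine le_antisymm ?_ ?_
  · have e : ringKrullDim (O ⧸ (⊥ : Ideal O)) = ringKrullDim O :=
      ringKrullDim_eq_of_ringEquiv (RingEquiv.quotientBot O)
    rw [← e]
    refine dim_quot_le ⊥ bot_ne_top d (Finset.univ.image t) ?_ ?_ N ?_
    · exact Finset.card_image_le.trans (by simp)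
    · intro s hs
      obtain ⟨i, _, rfl⟩ := Finset.mem_image.1 hs
      exact ht i
    · refine hN.trans ?_
      rw [bot_sup_eq]
      refine Ideal.span_mono ?_
      rintro _ ⟨i, rfl⟩
      exact Finset.mem_coe.2 (Finset.mem_image_of_mem t (Finset.mem_univ i))
  · have hbot : (⊥ : Ideal O) ∈ associatedPrimes O O := by
      rw [AssociatedPrimes.mem_iff, isAssociatedPrime_iff]
      refine ⟨Ideal.isPrime_bot, 1, ?_⟩
      ext r
      rw [Submodule.mem_colon_singleton]
      simp
    have h1 := dep_le_dim d O h ⊥ hbot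
    have e : ringKrullDim (O ⧸ (⊥ : Ideal O)) = ringKrullDim O :=
      ringKrullDim_eq_of_ringEquiv (RingEquiv.quotientBot O)
    rw [e] at h1
    exact h1

end CMT
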