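import Pool.Agent.H43.CM.G.ThMem

/-!
# MP_7fe4b4_ag, job G-Pow : (G2) `θ_1, …, θ_{ℓ(v)}` generate an ideal primary to the origin on `X_v`

Proof.  Let `J = VI (SS 1 v) ⊔ span (range θ)`.  Nullstellensatz (`vanishingIdeal_zeroLocus_eq_radical`): it is enough that every
point `z ∈ zeroLocus J` is `0`: then `X e ∈ vanishingIdeal (zeroLocus J) = J.radical` for every `e`, so the ideal
`span (range X)` is contained in `J.radical`; it is finitely generated, so a power is contained in `J`
(`Ideal.exists_pow_le_of_le_radical_of_fg`).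
Let `z ∈ zeroLocus J`.  `exists_cell 1 z`: `z ∈ SS 1 w`.  `ble w v` (`ble_of_closure`).  If `w ≠ 1`: `1 ≤ len w ≤ len v` (`len_le_of_ble`), so
`θ_{len w}` is one of the generators of `J` (index `i = len w - 1`), so `aeval z (θ_{len w}) = 0`, contradicting `theta_ne`.
So `w = 1` and `z = 0` by `SS_one_one`.
-/

open MvPolynomial

noncomputable section

namespace CMT

variable {n : ℕ}

/-- (G2) -/
theorem pow_le_theta (v : Equiv.Perm (Fin n)) : ∃ N : ℕ,
    (Ideal.span (Set.range (X : Low n → MvPolynomial (Low n) ℂ))) ^ N ≤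
      VI (SS 1 v) ⊔ Ideal.span (Set.range fun i : Fin (len v) => theta n (i.val + 1)) := by
  set J : Ideal (MvPolynomial (Low n) ℂ) :=
    VI (SS 1 v) ⊔ Ideal.span (Set.range fun i : Fin (len v) => theta n (i.val + 1)) with hJ
  have hzero : ∀ z ∈ zeroLocus ℂ J, z = 0 := by
    intro z hz
    rw [mem_zeroLocus_iff] at hz
    obtain ⟨w, hw⟩ := exists_cell 1 z
    have hble : ble w v := ble_of_closure (fun f hf => hz f (Ideal.mem_sup_left hf)) hw
    by_cases h1 : w = 1
    · subst h1
      exact SS_one_one hw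
    · exfalso
      have hlen : len w ≤ len v := len_le_of_ble hble
      have hpos : 1 ≤ len w := by
        rw [Nat.one_le_iff_ne_zero]
        intro h0
        exact h1 (eq_of_ble_of_len (ble_one w) (by rw [len_one, h0])).symm
      have hmem : theta n (len w) ∈ J := by
        refine Ideal.mem_sup_right (Ideal.subset_span ⟨⟨len w - 1, by omega⟩, ?_⟩)
        simp only
        rw [Nat.sub_add_cancel hpos]
      exact theta_ne h1 hw (hz _ hmem)
  have hle : Ideal.span (Set.range (X : Low n → MvPolynomial (Low n) ℂ)) ≤ J.radical := by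
    rw [← vanishingIdeal_zeroLocus_eq_radical (K := ℂ), Ideal.span_le]
    rintro _ ⟨e, rfl⟩
    show X e ∈ vanishingIdeal ℂ (zeroLocus ℂ J)
    rw [mem_vanishingIdeal_iff]
    intro z hz
    rw [hzero z hz]
    simp
  exact Ideal.exists_pow_le_of_le_radical_of_fg hle
    (isNoetherian_def.mp (inferInstance : IsNoetherian _ (MvPolynomial (Low n) ℂ)) _)

end CMT
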