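import Pool.Agent.H43.CM.C.DepRing
import Pool.Agent.H43.CM.C.DepLes

/-!
# JOB CM-G01 : regular families (elementary form of regular sequences)

`RegFam t` : `t_j` is a nonzerodivisor modulo `(t_0, ..., t_{j-1})` for all `j`.
`jid t j` is the ideal generated by the `t_i` with `i < j`  (`j : ℕ`).

* `jid_zero`, `jid_top`, `jid_succ` : clear (`Fin` bookkeeping).
* `quotSMul_equiv` : for a module `M = O ⧸ J` the module `M / x M` is `O ⧸ (J ⊔ (x))`.  For instance:
  the map `O → QuotSMulTop x (O ⧸ J)` is onto and its kernel is `J ⊔ span {x}`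
  (`Submodule.quotEquivOfEq`, `LinearMap.quotKerEquivOfSurjective`).
* `regFam_isSMulRegular` : `RegFam t` says that `t j` is `IsSMulRegular` on `O ⧸ jid t j`.
* `regFam_dep` : descending induction on `j` (i.e. induction on `d - j`).  `j = d`: `Dep .. 0` is
  trivial (empty list).  Step `j < d`: a list `rs` of length `d - j - 1` for
  `O ⧸ jid t (j+1) ≃ QuotSMulTop (t j) (O ⧸ jid t j)` gives the list `t j :: rs`
  (`RingTheory.Sequence.isWeaklyRegular_cons_iff`, `dep_congr`).
-/

open scoped Pointwise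

noncomputable section

namespace CMT

variable {O : Type} [CommRing O] {d : ℕ}

/-- the ideal generated by the `t_i` with `i < j` -/
def jid (t : Fin d → O) (j : ℕ) : Ideal O := Ideal.span (t '' {i | i.val < j})

/-- `t_j` is a nonzerodivisor modulo `(t_0, ..., t_{j-1})` for all `j` -/
def RegFam (t : Fin d → O) : Prop :=
  ∀ (j : Fin d) (x : O), t j * x ∈ jid t j.val → x ∈ jid t j.val

theorem jid_zero (t : Fin d → O) : jid t 0 = ⊥ := by
  unfold jid
  have : {i : Fin d | i.val < 0} = ∅ := by
    ext i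
    simp
  rw [this, Set.image_empty, Ideal.span_empty]

theorem jid_top (t : Fin d → O) : jid t d = Ideal.span (Set.range t) := by
  unfold jid
  have : {i : Fin d | i.val < d} = Set.univ := by
    ext i
    simp
  rw [this, Set.image_univ]

theorem jid_succ (t : Fin d → O) (j : Fin d) :
    jid t (j.val + 1) = jid t j.val ⊔ Ideal.span {t j} := by
  unfold jid
  have : {i : Fin d | i.val < j.val + 1} = {i | i.val < j.val} ∪ {j} := by
    ext i
    simp only [Set.mem_ofPred_eq, Set.mem_union, Set.mem_singleton_iff, Fin.ext_iff]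
    omega
  rw [this, Set.image_union, Ideal.span_union, Set.image_singleton]

theorem RegFam_ker (J : Ideal O) (x : O) :
    LinearMap.ker ((Submodule.mkQ (x • (⊤ : Submodule O (O ⧸ J)))).comp (Submodule.mkQ J)) =
      J ⊔ Ideal.span {x} := by
  ext y
  rw [LinearMap.mem_ker, LinearMap.comp_apply, Submodule.mkQ_apply, Submodule.mkQ_apply,
    Submodule.Quotient.mk_eq_zero, Submodule.mem_smul_pointwise_iff_exists]
  constructor
  · rintro ⟨z, -, hz⟩
    obtain ⟨z, rfl⟩ := Submodule.Quotient.mk_surjective _ z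
    rw [← Submodule.Quotient.mk_smul, Submodule.Quotient.eq] at hz
    have h1 : y = -(x • z - y) + x * z := by
      rw [smul_eq_mul]
      ring
    rw [h1]
    refine Submodule.add_mem_sup (J.neg_mem hz) ?_
    rw [Ideal.mem_span_singleton]
    exact dvd_mul_right x z
  · intro hy
    obtain ⟨a, ha, b, hb, rfl⟩ := Submodule.mem_sup.1 hy
    obtain ⟨z, rfl⟩ := Ideal.mem_span_singleton.1 hb
    refine ⟨Submodule.Quotient.mk z, Submodule.mem_top, ?_⟩
    rw [← Submodule.Quotient.mk_smul, Submodule.Quotient.eq, smul_eq_mul]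
    have : x * z - (a + x * z) = -a := by ring
    rw [this]
    exact J.neg_mem ha

theorem quotSMul_equiv (J : Ideal O) (x : O) :
    Nonempty (QuotSMulTop x (O ⧸ J) ≃ₗ[O] O ⧸ (J ⊔ Ideal.span {x})) := by
  have hs : Function.Surjective
      ((Submodule.mkQ (x • (⊤ : Submodule O (O ⧸ J)))).comp (Submodule.mkQ J)) :=
    (Submodule.mkQ_surjective _).comp (Submodule.mkQ_surjective _)
  exact ⟨(LinearMap.quotKerEquivOfSurjective _ hs).symm.trans
    (Submodule.quotEquivOfEq _ _ (RegFam_ker J x))⟩

theorem regFam_isSMulRegular (t : Fin d → O) (h : RegFam t) (j : Fin d) :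
    IsSMulRegular (O ⧸ jid t j.val) (t j) := by
  intro a b hab
  obtain ⟨a, rfl⟩ := Submodule.Quotient.mk_surjective _ a
  obtain ⟨b, rfl⟩ := Submodule.Quotient.mk_surjective _ b
  have hab' : t j • (Submodule.Quotient.mk a : O ⧸ jid t j.val) = t j • Submodule.Quotient.mk b := hab
  rw [← Submodule.Quotient.mk_smul, ← Submodule.Quotient.mk_smul, Submodule.Quotient.eq,
    ← smul_sub, smul_eq_mul] at hab'
  rw [Submodule.Quotient.eq]
  exact h j _ hab'

theorem RegFam_dep_aux (m : Ideal O) (t : Fin d → O) (ht : ∀ i, t i ∈ m) (h : RegFam t) :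
    ∀ k j : ℕ, j + k = d → Dep O m (O ⧸ jid t j) k := by
  intro k
  induction k with
  | zero =>
    intro j _
    exact ⟨[], rfl, by simp, RingTheory.Sequence.IsWeaklyRegular.nil _ _⟩
  | succ k ih =>
    intro j hj
    have hjd : j < d := by omega
    have h1 := ih (j + 1) (by omega)
    have h2 := jid_succ t ⟨j, hjd⟩
    simp only at h2
    rw [h2] at h1
    obtain ⟨e⟩ := quotSMul_equiv (jid t j) (t ⟨j, hjd⟩)
    obtain ⟨rs, hl, hI, hr⟩ := dep_congr m e.symm k h1
    refine ⟨t ⟨j, hjd⟩ :: rs, by rw [List.length_cons, hl], ?_, ?_⟩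
    · intro r hr'
      rcases List.mem_cons.1 hr' with rfl | hr'
      · exact ht _
      · exact hI r hr'
    · rw [RingTheory.Sequence.isWeaklyRegular_cons_iff]
      exact ⟨regFam_isSMulRegular t h ⟨j, hjd⟩, hr⟩

theorem regFam_dep (m : Ideal O) (t : Fin d → O) (ht : ∀ i, t i ∈ m) (h : RegFam t) (j : ℕ)
    (hj : j ≤ d) : Dep O m (O ⧸ jid t j) (d - j) :=
  RegFam_dep_aux m t ht h (d - j) j (by omega)

end CMT
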