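import Pool.Agent.H43.CM.G.LocReg
import Pool.Agent.H43.CM.G.DepLoc
import Pool.Agent.H43.CM.G.Homog

/-!
# JOB CM-G07 : the parameters are a regular family in `R = A / I`

`A = ℂ[z]`, `I` homogeneous prime, `R = A ⧸ I`, `mX` the ideal of `R` generated by the variables
(it is maximal: `mX_isMaximal`; `A ⧸ (X) ≃ ℂ` and `I ≤ (X)` by `h.le`).
`O = Localization.AtPrime mX`, a Noetherian local domain.
* `mX_comap` : the preimage of `mX` in `A` is `(X)`; `mX_not_mem` : for `f : A`: `mk f ∉ mX` iff the constant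
  coefficient of `f` is nonzero.
* `gradedCM_loc` : the images of the `th i` in `O` satisfy the hypotheses of `regFam_local`: they are in the
  maximal ideal (the `th i` are homogeneous of positive weight, so have zero constant coefficient), and
  `𝔪_O^N ≤ (t)` from `h.prim` (`mX.map = 𝔪_O`: `Localization.AtPrime.map_eq_maximalIdeal`; the image of `I` is 0).
* `gradedCM_dim`, `gradedCM_depLoc` : `dim_local`, `dep_localization`.
* `gradedCM_regFam` : let `th_j f ∈ I ⊔ (th_i : i<j) =: J` (lift to `A`).  In `O` the family is regular, so the image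
  of `f` is in `jid`, so there is `s ∈ A`, `s ∉ (X)`, with `s f ∈ J` (an element of the extension of an ideal to a
  localization: `IsLocalization.mem_map_algebraMap_iff`, and `O` is a domain containing `R`).  `J` is homogeneous by
  `hom_sup`, `s` has nonzero constant coefficient, so `f ∈ J` by `hom_descend`.
-/

open MvPolynomial

noncomputable section

namespace CMT

/-- the ideal of the origin in `A / I` -/
abbrev mX {ι : Type} (I : Ideal (MvPolynomial ι ℂ)) : Ideal (MvPolynomial ι ℂ ⧸ I) :=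
  Ideal.span (Set.range fun e => Ideal.Quotient.mk I (X e))

variable {ι : Type} [Finite ι] {w : ι → ℕ} {I : Ideal (MvPolynomial ι ℂ)} {d : ℕ}
  {th : Fin d → MvPolynomial ι ℂ}

private theorem rr_mem_span (f : MvPolynomial ι ℂ) :
    f ∈ Ideal.span (Set.range (X : ι → MvPolynomial ι ℂ)) ↔ constantCoeff f = 0 := by
  rw [← Set.image_univ, mem_ideal_span_X_image]
  constructor
  · intro h
    by_contra hf
    have h0 : (0 : ι →₀ ℕ) ∈ f.support := by
      rw [mem_support_iff]
      exact hf
    obtain ⟨i, -, hi⟩ := h 0 h0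
    exact hi rfl
  · intro h m hm
    have hm0 : m ≠ 0 := by
      rintro rfl
      rw [mem_support_iff] at hm
      exact hm h
    obtain ⟨i, hi⟩ := Finsupp.ne_iff.1 hm0
    exact ⟨i, Set.mem_univ i, hi⟩

private theorem rr_mX : mX I = (Ideal.span (Set.range (X : ι → MvPolynomial ι ℂ))).map
    (Ideal.Quotient.mk I) := by
  unfold mX
  rw [Ideal.map_span, ← Set.range_comp]
  rfl

private theorem rr_mk_mem_map (J : Ideal (MvPolynomial ι ℂ)) (f : MvPolynomial ι ℂ) :
    Ideal.Quotient.mk I f ∈ J.map (Ideal.Quotient.mk I) ↔ f ∈ I ⊔ J := by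
  constructor
  · intro h
    have h2 : f ∈ Ideal.comap (Ideal.Quotient.mk I) (Ideal.map (Ideal.Quotient.mk I) J) := h
    rw [Ideal.comap_map_of_surjective' _ Ideal.Quotient.mk_surjective, Ideal.mk_ker,
      sup_comm] at h2
    exact h2
  · intro h
    have h2 : f ∈ Ideal.comap (Ideal.Quotient.mk I) (Ideal.map (Ideal.Quotient.mk I) J) := by
      rw [Ideal.comap_map_of_surjective' _ Ideal.Quotient.mk_surjective, Ideal.mk_ker,
        sup_comm]
      exact h
    exact h2

theorem mX_mem (h : GradedCM w I d th) (f : MvPolynomial ι ℂ) :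
    Ideal.Quotient.mk I f ∈ mX I ↔ constantCoeff f = 0 := by
  rw [rr_mX, rr_mk_mem_map, sup_eq_right.2 h.le, rr_mem_span]

theorem mX_isMaximal (h : GradedCM w I d th) : (mX I).IsMaximal := by
  rw [Ideal.isMaximal_iff]
  constructor
  · intro h1
    have h2 := (mX_mem h 1).1 (by rw [map_one]; exact h1)
    rw [map_one] at h2
    exact one_ne_zero h2
  · intro J x hJ hx hxJ
    obtain ⟨f, rfl⟩ := Ideal.Quotient.mk_surjective x
    rw [mX_mem h] at hx
    have h3 : Ideal.Quotient.mk I (f - C (constantCoeff f)) ∈ mX I := by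
      rw [mX_mem h, map_sub, constantCoeff_C, sub_self]
    have h4 := J.sub_mem hxJ (hJ h3)
    rw [map_sub, sub_sub_cancel] at h4
    have h5 := J.mul_mem_left (Ideal.Quotient.mk I (C (constantCoeff f)⁻¹)) h4
    rw [← map_mul, ← C_mul, inv_mul_cancel₀ hx, C_1, map_one] at h5
    exact h5

theorem th_mem (h : GradedCM w I d th) (i : Fin d) : Ideal.Quotient.mk I (th i) ∈ mX I := by
  rw [mX_mem h]
  obtain ⟨m, hm, hh⟩ := h.thom i
  apply hh.coeff_eq_zero
  rw [map_zero]
  omega

theorem mX_pow_le (h : GradedCM w I d th) :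
    ∃ N : ℕ, mX I ^ N ≤ Ideal.span (Set.range fun i => Ideal.Quotient.mk I (th i)) := by
  obtain ⟨N, hN⟩ := h.prim
  refine ⟨N, ?_⟩
  rw [rr_mX, ← Ideal.map_pow]
  refine le_trans (Ideal.map_mono hN) ?_
  rw [Ideal.map_sup, Ideal.map_quotient_self, bot_sup_eq, Ideal.map_span, ← Set.range_comp]
  exact le_rfl

theorem gradedCM_loc (h : GradedCM w I d th) [hm : (mX I).IsPrime] :
    (∀ i, algebraMap _ (Localization.AtPrime (mX I)) (Ideal.Quotient.mk I (th i)) ∈
      IsLocalRing.maximalIdeal (Localization.AtPrime (mX I))) ∧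
    ∃ N : ℕ, IsLocalRing.maximalIdeal (Localization.AtPrime (mX I)) ^ N ≤
      Ideal.span (Set.range fun i =>
        algebraMap _ (Localization.AtPrime (mX I)) (Ideal.Quotient.mk I (th i))) := by
  constructor
  · intro i
    rw [IsLocalization.AtPrime.to_map_mem_maximal_iff (Localization.AtPrime (mX I)) (mX I)]
    exact th_mem h i
  · obtain ⟨N, hN⟩ := mX_pow_le h
    refine ⟨N, ?_⟩
    rw [← Localization.AtPrime.map_eq_maximalIdeal, ← Ideal.map_pow]
    refine le_trans (Ideal.map_mono hN) ?_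
    rw [Ideal.map_span, ← Set.range_comp]
    exact le_rfl

private theorem rr_noeth [hm : (mX I).IsPrime] :
    IsNoetherianRing (Localization.AtPrime (mX I)) :=
  IsLocalization.isNoetherianRing (mX I).primeCompl _ inferInstance

theorem gradedCM_dim (h : GradedCM w I d th) [hm : (mX I).IsPrime] :
    ringKrullDim (Localization.AtPrime (mX I)) = ((d : ℕ∞) : WithBot ℕ∞) := by
  have := rr_noeth (I := I)
  have := h.dom
  have : IsDomain (Localization.AtPrime (mX I)) :=
    IsLocalization.isDomain_localization (Ideal.primeCompl_le_nonZeroDivisors (mX I))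
  obtain ⟨h1, N, h2⟩ := gradedCM_loc h
  exact dim_local _ h1 N h2 (dep_localization (mX I) d h.dep)

theorem gradedCM_locRegFam (h : GradedCM w I d th) [hm : (mX I).IsPrime] :
    RegFam fun i => algebraMap _ (Localization.AtPrime (mX I)) (Ideal.Quotient.mk I (th i)) := by
  have := rr_noeth (I := I)
  obtain ⟨h1, N, h2⟩ := gradedCM_loc h
  exact regFam_local _ h1 N h2 (dep_localization (mX I) d h.dep)

private theorem rr_jid {R S : Type} [CommRing R] [CommRing S] (f : R →+* S) {d : ℕ}
    (t : Fin d → R) (j : ℕ) : jid (fun i => f (t i)) j = (jid t j).map f := by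
  unfold jid
  rw [Ideal.map_span, Set.image_image]

theorem gradedCM_regFam (h : GradedCM w I d th) : RegFam fun i => Ideal.Quotient.mk I (th i) := by
  have hmax := mX_isMaximal h
  have hm : (mX I).IsPrime := hmax.isPrime
  intro j x hx
  have h1 := gradedCM_locRegFam h j (algebraMap _ (Localization.AtPrime (mX I)) x)
  have e : jid (fun i => algebraMap (MvPolynomial ι ℂ ⧸ I) (Localization.AtPrime (mX I))
      (Ideal.Quotient.mk I (th i))) j.val = (jid (fun i => Ideal.Quotient.mk I (th i))
      j.val).map (algebraMap (MvPolynomial ι ℂ ⧸ I) (Localization.AtPrime (mX I))) :=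
    rr_jid _ _ _
  rw [e] at h1
  have h2 := h1 (by rw [← map_mul]; exact Ideal.mem_map_of_mem _ hx)
  rw [IsLocalization.mem_map_algebraMap_iff (mX I).primeCompl] at h2
  obtain ⟨⟨a, s⟩, h3⟩ := h2
  rw [← map_mul] at h3
  obtain ⟨c, h4⟩ := (IsLocalization.eq_iff_exists (mX I).primeCompl _).1 h3
  obtain ⟨f, rfl⟩ := Ideal.Quotient.mk_surjective x
  obtain ⟨g, hg⟩ := Ideal.Quotient.mk_surjective (I := I)
    ((c : MvPolynomial ι ℂ ⧸ I) * (s : MvPolynomial ι ℂ ⧸ I))
  have hg0 : constantCoeff g ≠ 0 := by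
    intro h5
    rw [← mX_mem h, hg] at h5
    rcases hm.mem_or_mem h5 with h6 | h6
    · exact c.2 h6
    · exact s.2 h6
  have h7 : Ideal.Quotient.mk I (g * f) ∈ jid (fun i => Ideal.Quotient.mk I (th i)) j.val := by
    rw [map_mul, hg]
    have h8 : (c : MvPolynomial ι ℂ ⧸ I) * (s : MvPolynomial ι ℂ ⧸ I) *
        Ideal.Quotient.mk I f = (c : MvPolynomial ι ℂ ⧸ I) * (a : MvPolynomial ι ℂ ⧸ I) := by
      rw [← h4]
      ring
    rw [h8]
    exact Ideal.mul_mem_left _ _ a.2
  rw [rr_jid (Ideal.Quotient.mk I) th j.val, rr_mk_mem_map] at h7 ⊢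
  have hS : ∀ s ∈ th '' {i | i.val < j.val}, ∃ k, IsWeightedHomogeneous w s k := by
    rintro _ ⟨i, -, rfl⟩
    obtain ⟨m, -, hm⟩ := h.thom i
    exact ⟨m, hm⟩
  exact hom_descend w h.wpos _ (hom_sup w I h.hom _ hS) g f hg0 h7

end CMT
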