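import Pool.Agent.H43.CM.G.Defs
import Pool.Agent.H43.CM.A.Iface

/-!
# MP_7fe4b4_ag, job G-ThHom : the parameters are homogeneous

Weights: `wt e = e.1.1 - e.1.2`.

* `pmnr_homogeneous`: `pmnr 1 w k` is weighted homogeneous of weight `∑_{i<k} (w i - i)` if it is a natural number;
  precisely we state: there is `m` with `m + ∑_{i<k} i = ∑_{i<k} w i` and `pmnr 1 w k` homogeneous of weight `m`.
  Proof: `∑_{i<k} w i ≥ ∑_{i<k} i` (sum of `k` distinct naturals; e.g. Mathlib `Finset.sum_range_id_le...` or induction; alternatively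
  it follows from the determinant expansion if the minor is nonzero, but we need it in general: the sum of the elements of a
  `k`-element set of naturals is `≥ 0+1+...+(k-1)`: `Finset.sum_range_le_sum` / `Finset.sum_card_slice`..; prove by induction on `k`
  by removing the maximum, which is `≥ k-1`).
  The determinant is `∑_σ sign σ ∏_j M (w (σ j)) j` with `M = lowMat X` (`permMat 1 = 1`), and `M i j` is homogeneous of weight
  `i - j` if `j ≤ i` (a variable or `1`) and `0` otherwise (homogeneous of every weight).  So each product is either `0` or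
  homogeneous of weight `∑_j (w (σ j) - j) = ∑_{i<k} w i - ∑_{i<k} i` (`IsWeightedHomogeneous.prod`, `.sum`...).
  (Alternative for everything: a polynomial `f` with `aeval (fun e => l^(wt e) * z e) f = l^m * aeval z f` for all `l ≠ 0`, `z` is
  weighted homogeneous of weight `m`.)
* `pw_homogeneous`: `pw w` is homogeneous of weight `delt w`: sum over `k : Fin n` of the weights:
  `∑_{k<n} ∑_{i<k} (w i) = ∑_i (n-1-i) (w i)` (the number of `k` with `i < k < n` is `n-1-i`).
* `delt_pos`: for `w ≠ 1`, `1 ≤ delt w`: each `∑_{i<k} w i ≥ ∑_{i<k} i`, and if all are equalities for `k ≤ n` then `w i = i`.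
* `theta_homogeneous`: each summand with `len w = j ≥ 1` has `w ≠ 1`, so `delt w ∣ DD n` (a factor of the product) and
  `pw w ^ (DD n / delt w)` has weight `DD n`.
-/

open MvPolynomial

noncomputable section

namespace CMT

variable {n : ℕ}

/-- a sum of `k` distinct naturals -/
theorem thHom_sum_le {k : ℕ} (f : Fin k → ℕ) (hf : Function.Injective f) :
    ∑ i : Fin k, (i : ℕ) ≤ ∑ i : Fin k, f i := by
  classical
  have hc : (Finset.univ.image f).card = k := by
    rw [Finset.card_image_of_injective _ hf, Finset.card_univ, Fintype.card_fin]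
  have h1 : ∑ i : Fin k, f i = ∑ x ∈ Finset.univ.image f, x := by
    rw [Finset.sum_image (fun a _ b _ h => hf h)]
  have h2 : ∑ x ∈ Finset.univ.image f, x =
      ∑ i : Fin k, (Finset.univ.image f).orderEmbOfFin hc i := by
    have h3 : Finset.univ.image ((Finset.univ.image f).orderEmbOfFin hc) = Finset.univ.image f := by
      exact Finset.image_orderEmbOfFin_univ _ hc
    conv_lhs => rw [← h3]
    rw [Finset.sum_image (fun a _ b _ h => ((Finset.univ.image f).orderEmbOfFin hc).injective h)]
  rw [h1, h2]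
  refine Finset.sum_le_sum fun i _ => ?_
  obtain ⟨g, hg⟩ : ∃ g : Fin k → ℕ, g = (Finset.univ.image f).orderEmbOfFin hc := ⟨_, rfl⟩
  have hmono : StrictMono g := by
    rw [hg]; exact ((Finset.univ.image f).orderEmbOfFin hc).strictMono
  have key : ∀ (m : ℕ) (hm : m < k), m ≤ g ⟨m, hm⟩ := by
    intro m
    induction m with
    | zero => intro _; exact Nat.zero_le _
    | succ m ih =>
      intro hm
      have h4 := ih (by omega)
      have h5 : g ⟨m, by omega⟩ < g ⟨m + 1, hm⟩ := hmono (by simp [Fin.lt_def])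
      omega
  have h6 := key i.1 i.2
  rw [hg] at h6
  exact h6

theorem thHom_lowMat {i j : Fin n} (h : j ≤ i) :
    IsWeightedHomogeneous (wt (n := n))
      (lowMat (fun e : Low n => (X e : MvPolynomial (Low n) ℂ)) i j) (i.val - j.val) := by
  rcases h.lt_or_eq with h1 | h1
  · rw [lowMat_lt _ h1]
    exact isWeightedHomogeneous_X ℂ (wt (n := n)) ⟨(i, j), h1⟩
  · subst h1
    rw [lowMat_diag, Nat.sub_self]
    exact isWeightedHomogeneous_one ℂ (wt (n := n))

theorem pmnr_homogeneous (w : Equiv.Perm (Fin n)) (k : ℕ) (hk : k ≤ n) :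
    ∃ m : ℕ, m + ∑ i : Fin k, (i : ℕ) = ∑ i : Fin k, (w (Fin.castLE hk i)).val ∧
      IsWeightedHomogeneous (wt (n := n)) (pmnr 1 w k hk) m := by
  classical
  have hle : ∑ i : Fin k, (i : ℕ) ≤ ∑ i : Fin k, (w (Fin.castLE hk i)).val := by
    refine thHom_sum_le (fun i : Fin k => (w (Fin.castLE hk i)).val) ?_
    intro a b hab
    have h1 : w (Fin.castLE hk a) = w (Fin.castLE hk b) := Fin.ext hab
    exact Fin.castLE_injective hk (w.injective h1)
  refine ⟨∑ i : Fin k, (w (Fin.castLE hk i)).val - ∑ i : Fin k, (i : ℕ),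
    Nat.sub_add_cancel hle, ?_⟩
  unfold pmnr mnr
  rw [permMat_one, Matrix.one_mul, Matrix.det_apply]
  refine IsWeightedHomogeneous.sum _ _ _ fun σ _ => ?_
  have hprod : IsWeightedHomogeneous (wt (n := n))
      (∏ j : Fin k, (Matrix.of fun i j : Fin k =>
        lowMat (fun e : Low n => (X e : MvPolynomial (Low n) ℂ)) (w (Fin.castLE hk i))
          (Fin.castLE hk j)) (σ j) j)
      (∑ i : Fin k, (w (Fin.castLE hk i)).val - ∑ i : Fin k, (i : ℕ)) := by
    by_cases hall : ∀ j : Fin k, Fin.castLE hk j ≤ w (Fin.castLE hk (σ j))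
    · have h1 : ∑ j : Fin k, ((w (Fin.castLE hk (σ j))).val - j.val) =
          ∑ i : Fin k, (w (Fin.castLE hk i)).val - ∑ i : Fin k, (i : ℕ) := by
        have h2 : ∑ j : Fin k, ((w (Fin.castLE hk (σ j))).val - j.val) + ∑ j : Fin k, j.val =
            ∑ i : Fin k, (w (Fin.castLE hk i)).val := by
          rw [← Finset.sum_add_distrib, ← Equiv.sum_comp σ (fun i => (w (Fin.castLE hk i)).val)]
          refine Finset.sum_congr rfl fun j _ => ?_
          have h3 := hall j
          rw [Fin.le_def] at h3
          have h4 : (Fin.castLE hk j).val = j.val := rfl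
          omega
        omega
      rw [← h1]
      refine IsWeightedHomogeneous.prod _ _ _ fun j _ => ?_
      exact thHom_lowMat (hall j)
    · push Not at hall
      obtain ⟨j, hj⟩ := hall
      have h0 : (∏ j : Fin k, (Matrix.of fun i j : Fin k =>
        lowMat (fun e : Low n => (X e : MvPolynomial (Low n) ℂ)) (w (Fin.castLE hk i))
          (Fin.castLE hk j)) (σ j) j) = 0 := by
        refine Finset.prod_eq_zero (Finset.mem_univ j) ?_
        exact lowMat_gt _ hj
      rw [h0]
      exact isWeightedHomogeneous_zero ℂ (wt (n := n)) _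
  rcases Int.units_eq_one_or (Equiv.Perm.sign σ) with h | h
  · rw [h, one_smul]; exact hprod
  · rw [h, Units.neg_smul, one_smul]
    exact hprod.neg

theorem thHom_tri (f : ℕ → ℕ) (n : ℕ) :
    ∑ k ∈ Finset.range n, ∑ i ∈ Finset.range k, f i =
      ∑ i ∈ Finset.range n, (n - 1 - i) * f i := by
  induction n with
  | zero => simp
  | succ n ih =>
    rw [Finset.sum_range_succ, ih, Finset.sum_range_succ, ← Finset.sum_add_distrib]
    have h1 : (n + 1 - 1 - n) * f n = 0 := by simp
    rw [h1, add_zero]
    refine Finset.sum_congr rfl fun i hi => ?_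
    have hi' := Finset.mem_range.1 hi
    have h2 : n + 1 - 1 - i = (n - 1 - i) + 1 := by omega
    rw [h2]; ring

theorem thHom_triW (w : Equiv.Perm (Fin n)) :
    ∑ k : Fin n, ∑ i : Fin k.val, (w (Fin.castLE k.isLt.le i)).val =
      ∑ i : Fin n, (n - 1 - i.val) * (w i).val := by
  classical
  let f : ℕ → ℕ := fun i => if h : i < n then (w ⟨i, h⟩).val else 0
  have h1 : ∀ k : Fin n, ∑ i : Fin k.val, (w (Fin.castLE k.isLt.le i)).val =
      ∑ i ∈ Finset.range k.val, f i := by
    intro k
    rw [← Fin.sum_univ_eq_sum_range]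
    refine Finset.sum_congr rfl fun i _ => ?_
    have hi : i.val < n := i.isLt.trans k.isLt
    simp only [f, dif_pos hi]
    rfl
  have h2 : ∀ i : Fin n, (n - 1 - i.val) * (w i).val = (n - 1 - i.val) * f i.val := by
    intro i
    simp only [f, dif_pos i.isLt]
  simp only [h1, h2]
  rw [Fin.sum_univ_eq_sum_range (fun k => ∑ i ∈ Finset.range k, f i) n,
    Fin.sum_univ_eq_sum_range (fun i => (n - 1 - i) * f i) n]
  exact thHom_tri f n

theorem thHom_delt (w : Equiv.Perm (Fin n)) (m : Fin n → ℕ)
    (hm : ∀ k : Fin n, m k + ∑ i : Fin k.val, (i : ℕ) =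
      ∑ i : Fin k.val, (w (Fin.castLE k.isLt.le i)).val) : ∑ k, m k = delt w := by
  have h1 : ∑ k, m k + ∑ k : Fin n, ∑ i : Fin k.val, (i : ℕ) =
      ∑ k : Fin n, ∑ i : Fin k.val, (w (Fin.castLE k.isLt.le i)).val := by
    rw [← Finset.sum_add_distrib]
    exact Finset.sum_congr rfl fun k _ => hm k
  have h2 : ∑ k : Fin n, ∑ i : Fin k.val, (i : ℕ) = ∑ i : Fin n, (n - 1 - i.val) * i.val := by
    have := thHom_triW (n := n) 1
    simpa using this
  rw [thHom_triW, h2] at h1
  unfold delt
  omega

theorem pw_homogeneous (w : Equiv.Perm (Fin n)) :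
    IsWeightedHomogeneous (wt (n := n)) (pw w) (delt w) := by
  choose m hm1 hm2 using fun k : Fin n => pmnr_homogeneous w k.val k.isLt.le
  rw [← thHom_delt w m hm1]
  unfold pw
  exact IsWeightedHomogeneous.prod _ _ _ fun k _ => hm2 k

theorem delt_pos {w : Equiv.Perm (Fin n)} (hw : w ≠ 1) : 1 ≤ delt w := by
  classical
  by_contra hcon
  have h0 : delt w = 0 := by omega
  apply hw
  choose m hm1 hm2 using fun k : Fin n => pmnr_homogeneous w k.val k.isLt.le
  have h1 := thHom_delt w m hm1
  rw [h0, Finset.sum_eq_zero_iff] at h1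
  let f : ℕ → ℕ := fun i => if h : i < n then (w ⟨i, h⟩).val else 0
  have hW : ∀ k, k ≤ n → ∑ i ∈ Finset.range k, f i = ∑ i ∈ Finset.range k, i := by
    intro k hk
    rcases hk.lt_or_eq with hk1 | hk1
    · have h2 := hm1 ⟨k, hk1⟩
      rw [h1 ⟨k, hk1⟩ (Finset.mem_univ _), zero_add] at h2
      rw [← Fin.sum_univ_eq_sum_range, ← Fin.sum_univ_eq_sum_range (fun i => i)]
      refine Eq.trans ?_ h2.symm
      refine Finset.sum_congr rfl fun i _ => ?_
      have hi : i.val < n := i.isLt.trans hk1
      simp only [f, dif_pos hi]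
      rfl
    · subst hk1
      rw [← Fin.sum_univ_eq_sum_range, ← Fin.sum_univ_eq_sum_range (fun i => i)]
      have h3 : ∀ i : Fin k, f i.val = (w i).val := by
        intro i
        simp only [f, dif_pos i.isLt]
      simp only [h3]
      exact Equiv.sum_comp w (fun i : Fin k => i.val)
  ext i
  have h4 := hW i.val i.isLt.le
  have h5 := hW (i.val + 1) i.isLt
  rw [Finset.sum_range_succ, Finset.sum_range_succ, h4] at h5
  have h6 : f i.val = (w i).val := by
    simp only [f, dif_pos i.isLt]
  rw [h6] at h5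
  have h7 : (w i).val = i.val := by omega
  simpa using h7

theorem len_one : len (1 : Equiv.Perm (Fin n)) = 0 := by
  unfold len
  rw [Finset.card_eq_zero, Finset.filter_eq_empty_iff]
  rintro p - ⟨h1, h2⟩
  exact lt_asymm h1 h2

theorem theta_homogeneous (j : ℕ) (hj : 1 ≤ j) :
    IsWeightedHomogeneous (wt (n := n)) (theta n j) (DD n) := by
  unfold theta
  refine IsWeightedHomogeneous.sum _ _ _ fun w _ => ?_
  have hw : w.1 ≠ 1 := by
    intro h
    have h1 := w.2
    rw [h, len_one] at h1
    omega
  have hd := delt_pos hw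
  have hdvd : delt w.1 ∣ DD n := by
    have h2 : max (delt w.1) 1 ∣ DD n :=
      Finset.dvd_prod_of_mem (fun w : Equiv.Perm (Fin n) => max (delt w) 1) (Finset.mem_univ w.1)
    rwa [max_eq_left hd] at h2
  have h3 := (pw_homogeneous w.1).pow (DD n / delt w.1)
  have h4 : (DD n / delt w.1) • delt w.1 = DD n := by
    rw [smul_eq_mul, Nat.div_mul_cancel hdvd]
  rwa [h4] at h3

end CMT
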