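import Pool.Agent.H43.CM.G.ThHom

/-!
# MP_7fe4b4_ag, job G-ThMem : vanishing of the parameters (G1)

* `pw_eq_zero`: if `¬ ble w' w` and `z ∈ SS 1 w` then `aeval z (pw w') = 0`.  Proof: there are `i, k` with `rk w i k < rk w' i k`;
  one can take `k < n`: for `k ≥ n` both ranks are `n - i` (number of values `≥ i`, a permutation) so `k < n`.
  `mnr_eq_zero`, `aeval_pmnr`.
* `pw_ne_zero`: `z ∈ SS 1 w`: `aeval z (pw w) ≠ 0`: all minors are nonzero (`mnr_ne_zero`).
* `theta_mem` (G1): `z ∈ SS 1 w`, `len w < j`: for each `w'` with `len w' = j`: `¬ ble w' w` (`len_le_of_ble`), so the summand is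
  `0 ^ (DD / delt w') = 0` because the exponent is `≥ 1`: `delt w' ∣ DD`, `DD > 0` (`w' ≠ 1` as `len w' = j ≥ 1`).
* `theta_ne`: `j = len w`, `w ≠ 1`, `z ∈ SS 1 w`: summands `w' ≠ w` with `len w' = len w` vanish (`¬ ble w' w` by `eq_of_ble_of_len`), the
  summand `w' = w` is nonzero.  (`len w ≥ 1` for `w ≠ 1`: `ble_one`, `eq_of_ble_of_len`, `len_one`.)
-/

open MvPolynomial

noncomputable section

namespace CMT

variable {n : ℕ}

theorem pw_eq_zero {w w' : Equiv.Perm (Fin n)} (h : ¬ ble w' w) {z : Low n → ℂ}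
    (hz : z ∈ SS 1 w) : aeval z (pw w') = 0 := by
  unfold ble at h
  push Not at h
  obtain ⟨i, k, hik⟩ := h
  have hk : k < n := by
    by_contra hc
    push Not at hc
    rw [rk_of_ge w i k hc, rk_of_ge w' i k hc, rk_top w w' i] at hik
    exact lt_irrefl _ hik
  unfold pw
  rw [map_prod]
  refine Finset.prod_eq_zero (Finset.mem_univ (⟨k, hk⟩ : Fin n)) ?_
  rw [aeval_pmnr]
  exact mnr_eq_zero hz k _ i hik

theorem pw_ne_zero {w : Equiv.Perm (Fin n)} {z : Low n → ℂ} (hz : z ∈ SS 1 w) :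
    aeval z (pw w) ≠ 0 := by
  unfold pw
  rw [map_prod, Finset.prod_ne_zero_iff]
  intro k _
  rw [aeval_pmnr]
  exact mnr_ne_zero hz _ _ (fun _ => rfl)

theorem ThMem_exp {w : Equiv.Perm (Fin n)} (hw : w ≠ 1) : DD n / delt w ≠ 0 := by
  have h1 := delt_pos hw
  have h2 : delt w ∣ DD n := by
    have h3 : max (delt w) 1 ∣ DD n :=
      Finset.dvd_prod_of_mem (fun w : Equiv.Perm (Fin n) => max (delt w) 1) (Finset.mem_univ w)
    rwa [max_eq_left h1] at h3
  have h4 : 0 < DD n := by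
    unfold DD
    exact Finset.prod_pos (fun w _ => lt_of_lt_of_le Nat.zero_lt_one (le_max_right _ _))
  exact (Nat.div_pos (Nat.le_of_dvd h4 h2) h1).ne'

theorem ThMem_ne_one {w : Equiv.Perm (Fin n)} (hw : 1 ≤ len w) : w ≠ 1 := by
  rintro rfl
  rw [len_one] at hw
  exact absurd hw (by decide)

theorem ThMem_aeval (z : Low n → ℂ) (j : ℕ) : aeval z (theta n j) =
    ∑ w : {w : Equiv.Perm (Fin n) // len w = j}, (aeval z (pw w.1)) ^ (DD n / delt w.1) := by
  unfold theta
  rw [map_sum]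
  simp only [map_pow]

/-- (G1) -/
theorem theta_mem {w : Equiv.Perm (Fin n)} {j : ℕ} (h : len w < j) : theta n j ∈ VI (SS 1 w) := by
  rw [mem_vanishingIdeal_iff]
  intro z hz
  rw [ThMem_aeval]
  refine Finset.sum_eq_zero (fun w' _ => ?_)
  obtain ⟨w', hw'⟩ := w'
  have h1 : ¬ ble w' w := fun hb => by
    have := len_le_of_ble hb
    omega
  dsimp only
  rw [pw_eq_zero h1 hz, zero_pow (ThMem_exp (ThMem_ne_one (by omega)))]

theorem theta_ne {w : Equiv.Perm (Fin n)} (hw : w ≠ 1) {z : Low n → ℂ} (hz : z ∈ SS 1 w) :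
    aeval z (theta n (len w)) ≠ 0 := by
  have hl : 1 ≤ len w := by
    by_contra hc
    apply hw
    have h0 : len (1 : Equiv.Perm (Fin n)) = len w := by
      rw [len_one]
      omega
    exact (eq_of_ble_of_len (ble_one w) h0).symm
  rw [ThMem_aeval, Finset.sum_eq_single (⟨w, rfl⟩ : {w' : Equiv.Perm (Fin n) // len w' = len w})]
  · exact pow_ne_zero _ (pw_ne_zero hz)
  · rintro ⟨w', hw'⟩ _ hne
    have h1 : ¬ ble w' w := fun hb => hne (Subtype.ext (eq_of_ble_of_len hb hw'))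
    dsimp only
    rw [pw_eq_zero h1 hz, zero_pow (ThMem_exp (ThMem_ne_one (by omega)))]
  · intro h
    exact absurd (Finset.mem_univ _) h

end CMT
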